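import Mathlib
import Pool.Agent.L7h55.IDT.Red
import Pool.Agent.TH654.FC.Open
import Pool.Agent.TH461.FGK.Two

/-!
A copy of `Pool.Agent.R203.ID.Gap`, with a smaller import.
Gap at zero for invariant probability measures: equivalences.
-/

set_option autoImplicit false
open MeasureTheory Filter Topology
open scoped NNReal ENNReal

namespace Pool.Agent.L7h55.ID

open Pool.Agent.R203.ID

open Pool.Agent.TH654.FC (nsmul_norm_eq norm_le_half re_lower open_growth exists_killing)

/-- the gap -/
def Gap (p q : ℕ) (c : ℝ) : Prop :=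
  ∀ μ : Measure TT, IsProbabilityMeasure μ →
    MeasurePreserving (fun x : TT => p • x) μ μ → MeasurePreserving (fun x : TT => q • x) μ μ →
    μ {0} = 0 → (hat μ 1).re ≤ 1 - c

lemma hat_re (μ : Measure TT) [IsProbabilityMeasure μ] (m : ℤ) :
    1 - (hat μ m).re = ∫ x, (1 - (fourier m x : ℂ).re) ∂μ := by
  have h1 : (hat μ m).re = ∫ x, (fourier m x : ℂ).re ∂μ := by
    unfold hat
    exact (integral_re (integrable_f μ m)).symm
  have h2 : Integrable (fun x : TT => (fourier m x : ℂ).re) μ := (integrable_f μ m).re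
  rw [h1, integral_sub (integrable_const _) h2]
  simp

/-- mass away from zero -/
lemma far_mass (μ : Measure TT) [IsProbabilityMeasure μ] {r : ℝ} (hr : 0 < r) :
    μ.real {x | r ≤ ‖x‖} ≤ (1 - (hat μ 1).re) / (8 * r ^ 2) := by
  rw [le_div_iff₀ (by positivity), hat_re μ 1]
  have hm : MeasurableSet {x : TT | r ≤ ‖x‖} :=
    (isClosed_le continuous_const continuous_norm).measurableSet
  calc μ.real {x | r ≤ ‖x‖} * (8 * r ^ 2)
      = ∫ x, Set.indicator {x : TT | r ≤ ‖x‖} (fun _ => 8 * r ^ 2) x ∂μ := by
        rw [integral_indicator hm, setIntegral_const, smul_eq_mul]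
    _ ≤ _ := by
        apply integral_mono
        · exact (integrable_const _).indicator hm
        · exact (integrable_const _).sub (integrable_f μ 1).re
        · intro x
          have h1 := re_lower 1 x
          rw [one_smul] at h1
          by_cases hx : r ≤ ‖x‖
          · rw [Set.indicator_of_mem (show x ∈ {x : TT | r ≤ ‖x‖} from hx)]
            have h2 : r ^ 2 ≤ ‖x‖ ^ 2 := by gcongr
            linarith
          · rw [Set.indicator_of_notMem (show x ∉ {x : TT | r ≤ ‖x‖} from hx)]
            have h2 := sq_nonneg ‖x‖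
            linarith

lemma re_le_one (μ : Measure TT) [IsProbabilityMeasure μ] (m : ℤ) : (hat μ m).re ≤ 1 :=
  (Complex.re_le_norm _).trans (norm_hat_le μ m)

/-- From the finiteness of invariant measures to the gap. -/
theorem gap_of_sigma {p q : ℕ}
    (h : ∀ L : Measure TT, SigmaFinite L → MeasurePreserving (fun x : TT => p • x) L L →
      MeasurePreserving (fun x : TT => q • x) L L → ∀ U : Set TT, IsOpen U → U.Nonempty →
      L U < ⊤ → L Set.univ < ⊤) : ∃ c : ℝ, 0 < c ∧ Gap p q c := by
  by_contra hcon
  push Not at hcon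
  have h1 : ∀ n : ℕ, ∃ μ : Measure TT, IsProbabilityMeasure μ ∧
      MeasurePreserving (fun x : TT => p • x) μ μ ∧ MeasurePreserving (fun x : TT => q • x) μ μ ∧
      μ {0} = 0 ∧ 1 - (1 / 2 : ℝ) ^ n < (hat μ 1).re := by
    intro n
    have := hcon ((1 / 2 : ℝ) ^ n) (by positivity)
    unfold Gap at this
    push Not at this
    exact this
  choose μ hμ hp hq h0 hre using h1
  set L : Measure TT := Measure.sum μ with hL
  have hinv : ∀ d : ℕ, (∀ n, MeasurePreserving (fun x : TT => d • x) (μ n) (μ n)) →
      MeasurePreserving (fun x : TT => d • x) L L := by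
    intro d hd
    have hm : Measurable fun x : TT => d • x := by fun_prop
    refine ⟨hm, ?_⟩
    ext s hs
    rw [Measure.map_apply hm hs, hL, Measure.sum_apply _ (hm hs), Measure.sum_apply _ hs]
    refine tsum_congr fun n => ?_
    exact (hd n).measure_preimage hs.nullMeasurableSet
  have hfar : ∀ r : ℝ, 0 < r → L {x | r ≤ ‖x‖} < ⊤ := by
    intro r hr
    have hm : MeasurableSet {x : TT | r ≤ ‖x‖} :=
      (isClosed_le continuous_const continuous_norm).measurableSet
    rw [hL, Measure.sum_apply _ hm]
    have hb : ∀ n, μ n {x | r ≤ ‖x‖} ≤ ENNReal.ofReal ((1 / 2 : ℝ) ^ n / (8 * r ^ 2)) := by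
      intro n
      have h2 := far_mass (μ n) hr
      rw [← ofReal_measureReal (measure_ne_top _ _)]
      apply ENNReal.ofReal_le_ofReal
      refine h2.trans ?_
      gcongr
      have := hre n
      linarith
    refine (ENNReal.tsum_le_tsum hb).trans_lt ?_
    rw [← ENNReal.ofReal_tsum_of_nonneg (fun n => by positivity)
      ((summable_geometric_of_lt_one (by norm_num) (by norm_num)).div_const _)]
    exact ENNReal.ofReal_lt_top
  have hz : L {0} = 0 := by
    rw [hL, Measure.sum_apply _ (measurableSet_singleton 0)]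
    simp [h0]
  have hsig : SigmaFinite L := by
    refine ⟨⟨⟨fun k => Ak k ∪ {0}, fun _ => trivial, fun k => ?_, ?_⟩⟩⟩
    · refine (measure_union_le _ _).trans_lt ?_
      rw [hz, add_zero]
      exact hfar _ (by positivity)
    · rw [← Set.iUnion_union, Ak_union]
      exact Set.compl_union_self {0}
  have hlt := h L hsig (hinv p hp) (hinv q hq) {x | 1 / 4 < ‖x‖}
    (isOpen_lt continuous_const continuous_norm) ⟨((1 / 2 : ℝ) : TT), by
      show (1 / 4 : ℝ) < ‖((1 / 2 : ℝ) : TT)‖
      have : ‖((1 / 2 : ℝ) : TT)‖ = 1 / 2 := by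
        have := AddCircle.norm_half_period_eq (p := (1 : ℝ))
        rw [abs_one] at this
        exact this
      rw [this]; norm_num⟩
    ((measure_mono fun x (hx : 1 / 4 < ‖x‖) => hx.le).trans_lt (hfar (1 / 4) (by norm_num)))
  rw [hL, Measure.sum_apply _ MeasurableSet.univ] at hlt
  simp only [measure_univ] at hlt
  rw [ENNReal.tsum_const_eq_top_of_ne_zero one_ne_zero] at hlt
  exact lt_irrefl _ hlt

/-- The gap bounds the mass off zero. -/
lemma gap_atom {p q : ℕ} {c : ℝ} (hG : Gap p q c) (μ : Measure TT) [IsProbabilityMeasure μ]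
    (hp : MeasurePreserving (fun x : TT => p • x) μ μ)
    (hq : MeasurePreserving (fun x : TT => q • x) μ μ) :
    c * (1 - μ.real {0}) ≤ 1 - (hat μ 1).re := by
  set z := μ.real {0} with hz
  have hz1 : z ≤ 1 := measureReal_le_one
  rcases hz1.lt_or_eq with hlt | heq
  · have hs : MeasurableSet ({0}ᶜ : Set TT) := (measurableSet_singleton 0).compl
    have hmass : μ.real {0}ᶜ = 1 - z := by
      rw [measureReal_compl (measurableSet_singleton 0)]; simp [hz]
    have hne : μ {0}ᶜ ≠ 0 := by
      intro h
      have : μ.real {0}ᶜ = 0 := by rw [measureReal_def, h]; rfl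
      rw [hmass] at this
      linarith
    have hrne : μ.restrict {0}ᶜ ≠ 0 := by
      intro h
      apply hne
      have := congrArg (fun m : Measure TT => m Set.univ) h
      simpa using this
    set ν : Measure TT := (μ {0}ᶜ)⁻¹ • μ.restrict {0}ᶜ with hν
    have hνp : IsProbabilityMeasure ν := by
      refine ⟨?_⟩
      rw [hν, Measure.smul_apply, Measure.restrict_apply_univ, smul_eq_mul]
      exact ENNReal.inv_mul_cancel hne (measure_ne_top _ _)
    have hpr := mp_restrict hp (measure_ne_top μ _)
    have hqr := mp_restrict hq (measure_ne_top μ _)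
    have h1 := hG ν hνp (hpr.smul_measure _) (hqr.smul_measure _) (by
      rw [hν, Measure.smul_apply, Measure.restrict_apply (measurableSet_singleton 0)]
      simp)
    have h2 : hat μ 1 = z + (1 - z : ℝ) * hat ν 1 := by
      have e1 : hat ν 1 = ((μ.real {0}ᶜ)⁻¹ : ℝ) * ∫ x in {0}ᶜ, (fourier 1 x : ℂ) ∂μ := by
        unfold hat
        rw [hν, integral_smul_measure, ENNReal.toReal_inv]
        rw [← measureReal_def]
        simp [Complex.real_smul]
      have e2 : hat μ 1 = (∫ x in {0}, (fourier 1 x : ℂ) ∂μ) +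
          ∫ x in {0}ᶜ, (fourier 1 x : ℂ) ∂μ :=
        (integral_add_compl (measurableSet_singleton 0) (integrable_f μ 1)).symm
      have e3 : (∫ x in {0}, (fourier 1 x : ℂ) ∂μ) = z := by
        rw [integral_singleton, f_zero, hz]
        simp [Complex.real_smul]
      rw [e2, e3, e1, hmass]
      have hne' : ((1 - z : ℝ) : ℂ) ≠ 0 := by
        exact_mod_cast (by linarith : (1 - z : ℝ) ≠ 0)
      push_cast
      push_cast at hne'
      rw [← mul_assoc, mul_inv_cancel₀ hne', one_mul]
    have h3 : (hat μ 1).re = z + (1 - z) * (hat ν 1).re := by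
      rw [h2, Complex.add_re, Complex.ofReal_re, Complex.re_ofReal_mul]
    rw [h3]
    have h4 : (1 - z) * (hat ν 1).re ≤ (1 - z) * (1 - c) :=
      mul_le_mul_of_nonneg_left h1 (by linarith)
    nlinarith
  · rw [heq]
    have := re_le_one μ 1
    linarith

lemma sym_zero {m : ℤ} (hm : m ≠ 0) {μ : Measure TT} [IsProbabilityMeasure μ]
    (h : ∀ x, μ {x} = 0) : sym m μ {0} = 0 := by
  unfold sym
  rw [Measure.map_apply (by fun_prop) (measurableSet_singleton 0),
    Measure.prod_apply (measurableSet_preimage (by fun_prop) (measurableSet_singleton 0))]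
  rw [lintegral_eq_zero_iff (measurable_measure_prodMk_left
    (measurableSet_preimage (by fun_prop) (measurableSet_singleton 0)))]
  refine Eventually.of_forall fun y => ?_
  have hfin : {x : TT | m • x = 0}.Finite := by
    have h1 := AddCircle.finite_torsion (p := (1 : ℝ)) (by omega : 0 < m.natAbs)
    refine h1.subset ?_
    intro x hx
    have hx' : m • x = 0 := hx
    show m.natAbs • x = 0
    rcases Int.natAbs_eq m with he | he
    · rw [← natCast_zsmul, ← he]; exact hx'
    · rw [← natCast_zsmul]
      have : (m.natAbs : ℤ) = -m := by omega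
      rw [this, neg_smul, hx', neg_zero]
  have hsub : (Prod.mk y ⁻¹' ((fun z : TT × TT => m • (z.1 - z.2)) ⁻¹' {0})) ⊆
      (fun x => y - x) '' {x : TT | m • x = 0} := by
    intro w hw
    refine ⟨y - w, ?_, by simp⟩
    exact hw
  have : NullSingletonClass μ := ⟨h⟩
  exact ((hfin.image _).subset hsub).measure_zero μ

end Pool.Agent.L7h55.ID
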