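import Mathlib
import Pool.Agent.L7h55.IDT.Equiv
import Pool.Agent.N317.TS.Wiener
import Pool.Agent.TH654.FC.Trace

/-!
Measures on the circle invariant under multiplication by `2` and by `3`: averages of the Fourier
coefficients, infinitely divisible measures with invariant roots, lower bound for the mean squares.
-/

set_option autoImplicit false
open MeasureTheory Filter Topology
open scoped NNReal ENNReal

namespace Pool.Agent.L7h55.IDT

open Pool.Agent.R203.ID Pool.Agent.L7h55.ID Pool.Agent.N317.TS

/-- the averages of the kernel -/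
lemma avg_point (μ : Measure TT) [IsProbabilityMeasure μ] (x0 : TT) :
    Tendsto (fun N : ℕ => ∫ x, Pool.Agent.N317.TS.ker N (x, x0) ∂μ) atTop (𝓝 (μ.real {x0} : ℂ)) := by
  have hcont : ∀ N, Continuous fun x : TT => Pool.Agent.N317.TS.ker N (x, x0) := by
    intro N
    unfold Pool.Agent.N317.TS.ker
    fun_prop
  have e : ∫ x, Set.indicator {x0} (fun _ => (1 : ℂ)) x ∂μ = (μ.real {x0} : ℂ) := by
    rw [integral_indicator (measurableSet_singleton x0), setIntegral_const]
    simp [Complex.real_smul]
  rw [← e]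
  refine tendsto_integral_of_dominated_convergence (fun _ => (1 : ℝ))
    (fun N => (hcont N).aestronglyMeasurable) (integrable_const _)
    (fun N => Eventually.of_forall fun z => norm_ker_le N _) (Eventually.of_forall fun x => ?_)
  by_cases hx : x = x0
  · subst hx
    rw [Set.indicator_of_mem (Set.mem_singleton _)]
    have : (fun N : ℕ => Pool.Agent.N317.TS.ker N (x, x)) =ᶠ[atTop] fun _ => (1 : ℂ) := by
      filter_upwards [eventually_ge_atTop 1] with N hN
      unfold Pool.Agent.N317.TS.ker
      have h1 : ∀ n ∈ Finset.range N, (fourier (n : ℤ) x : ℂ) *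
          (starRingEnd ℂ) (fourier (n : ℤ) x) = 1 := by
        intro n _
        rw [Complex.mul_conj, Complex.normSq_eq_norm_sq, norm_fourier_eq]; simp
      simp only
      rw [Finset.sum_congr rfl h1]
      have hN' : (N : ℂ) ≠ 0 := by
        have : N ≠ 0 := by omega
        exact_mod_cast this
      simp [hN']
    exact Tendsto.congr' this.symm tendsto_const_nhds
  · rw [Set.indicator_of_notMem (by simpa using hx)]
    exact ker_tendsto (z := (x, x0)) hx

/-- a bound for all coefficients is a bound for the mass outside of zero -/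
lemma avg (μ : Measure TT) [IsProbabilityMeasure μ] {K : ℝ}
    (h : ∀ m : ℕ, 1 - (hat μ m).re ≤ K) : 1 - μ.real {0} ≤ K := by
  have h1 := (Complex.continuous_re.tendsto _).comp (avg_point μ 0)
  simp only [Function.comp_def, Complex.ofReal_re] at h1
  have h2 : ∀ᶠ N : ℕ in atTop, 1 - K ≤ (∫ x, Pool.Agent.N317.TS.ker N (x, 0) ∂μ).re := by
    filter_upwards [eventually_ge_atTop 1] with N hN
    have hN' : (0 : ℝ) < N := by exact_mod_cast hN
    have e : ∫ x, Pool.Agent.N317.TS.ker N (x, (0 : TT)) ∂μ = (1 / (N : ℂ)) * ∑ n ∈ Finset.range N, hat μ n := by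
      unfold Pool.Agent.N317.TS.ker hat
      rw [integral_const_mul, integral_finsetSum]
      · congr 1
        refine Finset.sum_congr rfl fun n _ => ?_
        congr 1
        funext x
        simp only
        rw [f_zero, map_one, mul_one]
      · intro n _
        refine (Continuous.integrable_of_hasCompactSupport ?_ (HasCompactSupport.of_compactSpace _))
        fun_prop
    rw [e]
    have e2 : ((1 / (N : ℂ)) * ∑ n ∈ Finset.range N, hat μ n).re =
        (1 / (N : ℝ)) * ∑ n ∈ Finset.range N, (hat μ n).re := by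
      have : (1 / (N : ℂ)) = ((1 / (N : ℝ) : ℝ) : ℂ) := by push_cast; rfl
      rw [this, Complex.re_ofReal_mul, Complex.re_sum]
    rw [e2]
    have h3 : (N : ℝ) * (1 - K) ≤ ∑ n ∈ Finset.range N, (hat μ n).re := by
      have : ∑ n ∈ Finset.range N, (1 - K) ≤ ∑ n ∈ Finset.range N, (hat μ n).re :=
        Finset.sum_le_sum fun n _ => by have := h n; linarith
      rwa [Finset.sum_const, Finset.card_range, nsmul_eq_mul] at this
    rw [one_div, le_inv_mul_iff₀ hN']
    exact h3
  have := ge_of_tendsto h1 h2
  linarith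

/-- the converse of Wiener's lemma -/
lemma atomless_of_mean (μ : Measure TT) [IsProbabilityMeasure μ]
    (h : Tendsto (fun N : ℕ => (∑ n ∈ Finset.range N, ‖hat μ n‖ ^ 2) / N) atTop (𝓝 0)) (x0 : TT) :
    μ {x0} = 0 := by
  have h1 := ((avg_point μ x0).norm).pow 2
  have h2 : ∀ N : ℕ, ‖∫ x, Pool.Agent.N317.TS.ker N (x, x0) ∂μ‖ ^ 2 ≤ (∑ n ∈ Finset.range N, ‖hat μ n‖ ^ 2) / N := by
    intro N
    rcases Nat.eq_zero_or_pos N with rfl | hN
    · simp [Pool.Agent.N317.TS.ker]
    have hN' : (0 : ℝ) < N := by exact_mod_cast hN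
    have e : ∫ x, Pool.Agent.N317.TS.ker N (x, x0) ∂μ = (1 / (N : ℂ)) * ∑ n ∈ Finset.range N,
        hat μ n * (starRingEnd ℂ) (fourier (n : ℤ) x0) := by
      unfold Pool.Agent.N317.TS.ker hat
      rw [integral_const_mul, integral_finsetSum]
      · congr 1
        refine Finset.sum_congr rfl fun n _ => ?_
        simp only
        rw [integral_mul_const]
      · intro n _
        refine (Continuous.integrable_of_hasCompactSupport ?_ (HasCompactSupport.of_compactSpace _))
        fun_prop
    rw [e, norm_mul, norm_div, norm_one, Complex.norm_natCast, mul_pow, div_pow, one_pow]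
    have h3 : ‖∑ n ∈ Finset.range N, hat μ n * (starRingEnd ℂ) (fourier (n : ℤ) x0)‖ ^ 2 ≤
        N * ∑ n ∈ Finset.range N, ‖hat μ n‖ ^ 2 := by
      have h4 : ‖∑ n ∈ Finset.range N, hat μ n * (starRingEnd ℂ) (fourier (n : ℤ) x0)‖ ≤
          ∑ n ∈ Finset.range N, ‖hat μ n‖ := by
        refine (norm_sum_le _ _).trans (le_of_eq ?_)
        refine Finset.sum_congr rfl fun n _ => ?_
        rw [norm_mul, RCLike.norm_conj, norm_fourier_eq, mul_one]
      have h5 := sq_sum_le_card_mul_sum_sq (s := Finset.range N) (f := fun n : ℕ => ‖hat μ n‖)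
      rw [Finset.card_range] at h5
      calc _ ≤ (∑ n ∈ Finset.range N, ‖hat μ n‖) ^ 2 := by gcongr
        _ ≤ _ := h5
    calc 1 / (N : ℝ) ^ 2 * ‖∑ n ∈ Finset.range N, hat μ n * (starRingEnd ℂ) (fourier (n : ℤ) x0)‖ ^ 2
        ≤ 1 / (N : ℝ) ^ 2 * (N * ∑ n ∈ Finset.range N, ‖hat μ n‖ ^ 2) := by gcongr
      _ = _ := by field_simp
  have h3 := le_of_tendsto_of_tendsto' h1 h h2
  have h4 : μ.real {x0} = 0 := by
    have h5 : ‖(μ.real {x0} : ℂ)‖ = μ.real {x0} := by
      rw [Complex.norm_real, Real.norm_of_nonneg measureReal_nonneg]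
    rw [h5] at h3
    have h6 := measureReal_nonneg (μ := μ) (s := {x0})
    nlinarith
  rw [measureReal_def, ENNReal.toReal_eq_zero_iff] at h4
  exact h4.resolve_right (measure_ne_top _ _)

/-- all coefficients are controlled by the first one -/
lemma gap_lin {p q : ℕ} {c : ℝ} (hc : 0 < c) (hG : Gap p q c) (μ : Measure TT)
    [IsProbabilityMeasure μ] (hp : MeasurePreserving (fun x : TT => p • x) μ μ)
    (hq : MeasurePreserving (fun x : TT => q • x) μ μ) (m : ℤ) :
    1 - (hat μ m).re ≤ 2 / c * (1 - (hat μ 1).re) := by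
  have h1 := gap_atom hG μ hp hq
  have h2 : 1 - (hat μ m).re ≤ 2 * (1 - μ.real {0}) := by
    rw [hat_re]
    have hs : MeasurableSet ({0}ᶜ : Set TT) := (measurableSet_singleton 0).compl
    have e : 2 * (1 - μ.real {0}) = ∫ x, Set.indicator ({0}ᶜ : Set TT) (fun _ => (2 : ℝ)) x ∂μ := by
      rw [integral_indicator hs, setIntegral_const, smul_eq_mul, probReal_compl_eq_one_sub
        (measurableSet_singleton 0)]
      ring
    rw [e]
    have hi : Integrable (fun x : TT => 1 - (fourier m x : ℂ).re) μ :=
      (integrable_const _).sub (integrable_f μ m).re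
    refine integral_mono hi ((integrable_const (2 : ℝ)).indicator hs) fun x => ?_
    by_cases hx : x = 0
    · subst hx
      simp only
      rw [f_zero, Set.indicator_of_notMem (by simp)]
      simp
    · simp only
      rw [Set.indicator_of_mem (by simpa using hx)]
      have h3 := Complex.abs_re_le_norm (fourier m x : ℂ)
      rw [norm_f] at h3
      linarith [(abs_le.1 h3).1]
  calc 1 - (hat μ m).re ≤ 2 * (1 - μ.real {0}) := h2
    _ = 2 / c * (c * (1 - μ.real {0})) := by field_simp
    _ ≤ _ := by gcongr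

/-- the linear inequality implies the gap -/
lemma gap_of_lin {p q : ℕ} {C : ℝ} (hC : 0 < C)
    (h : ∀ μ : Measure TT, IsProbabilityMeasure μ →
      MeasurePreserving (fun x : TT => p • x) μ μ → MeasurePreserving (fun x : TT => q • x) μ μ →
      ∀ m : ℕ, 1 - (hat μ m).re ≤ C * (1 - (hat μ 1).re)) : Gap p q (1 / C) := by
  intro μ hμ hp hq h0
  have h1 := avg μ (h μ hμ hp hq)
  rw [measureReal_def, h0, ENNReal.toReal_zero, sub_zero] at h1
  have h2 : 1 / C ≤ 1 - (hat μ 1).re := by
    rw [div_le_iff₀ hC]; linarith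
  linarith

/-- atoms of the sum of independent variables -/
lemma nfold_point_ge (n : ℕ) (μ : Measure TT) [IsProbabilityMeasure μ] (z : TT) :
    μ {z} ^ n ≤ nfold n μ {n • z} := by
  unfold nfold
  rw [Measure.map_apply (meas_sum n) (measurableSet_singleton _)]
  calc μ {z} ^ n = (Measure.pi fun _ : Fin n => μ) (Set.univ.pi fun _ => {z}) := by
        rw [Measure.pi_pi]; simp
    _ ≤ _ := by
        apply measure_mono
        intro y hy
        simp only [Set.mem_pi, Set.mem_univ, forall_const, Set.mem_singleton_iff] at hy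
        simp [hy]

lemma finite_zsmul {m : ℤ} (hm : m ≠ 0) (w : TT) : {x : TT | m • x = w}.Finite := by
  have h0 : {x : TT | m • x = 0}.Finite := by
    have e : {x : TT | m • x = 0} = {x : TT | m.natAbs • x = 0} := by
      ext x
      simp only [Set.mem_ofPred_eq]
      rcases Int.natAbs_eq m with h | h
      · constructor
        · intro hx; rw [h, natCast_zsmul] at hx; exact hx
        · intro hx; rw [h, natCast_zsmul]; exact hx
      · constructor
        · intro hx; rw [h, neg_zsmul, natCast_zsmul, neg_eq_zero] at hx; exact hx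
        · intro hx; rw [h, neg_zsmul, natCast_zsmul, neg_eq_zero]; exact hx
    rw [e]
    exact AddCircle.finite_torsion (p := (1 : ℝ)) (by omega : 0 < m.natAbs)
  rcases Set.eq_empty_or_nonempty {x : TT | m • x = w} with h | ⟨y, hy⟩
  · rw [h]; exact Set.finite_empty
  · have : {x : TT | m • x = w} ⊆ (fun x => x + y) '' {x : TT | m • x = 0} := by
      intro x hx
      refine ⟨x - y, ?_, by simp⟩
      simp only [Set.mem_ofPred_eq] at hx hy ⊢
      rw [zsmul_sub, hx, hy, sub_self]
    exact (h0.image _).subset this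

lemma finite_null {μ : Measure TT} (h : ∀ x, μ {x} = 0) {s : Set TT} (hs : s.Finite) : μ s = 0 := by
  have e : s = ⋃ x ∈ s, {x} := by simp
  rw [e]
  exact (measure_biUnion_null_iff hs.countable).2 fun x _ => h x

/-- symmetrisation of atomless measures -/
lemma sym_atomless {m : ℤ} (hm : m ≠ 0) {μ : Measure TT} [IsProbabilityMeasure μ]
    (h : ∀ x, μ {x} = 0) (w : TT) : sym m μ {w} = 0 := by
  unfold sym
  have hm' : MeasurableSet ((fun z : TT × TT => m • (z.1 - z.2)) ⁻¹' {w}) :=
    measurableSet_preimage (by fun_prop) (measurableSet_singleton w)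
  rw [Measure.map_apply (by fun_prop) (measurableSet_singleton w), Measure.prod_apply hm',
    lintegral_eq_zero_iff (measurable_measure_prodMk_left hm')]
  refine Eventually.of_forall fun y => ?_
  simp only [Pi.zero_apply]
  apply finite_null h
  refine (finite_zsmul hm (m • y - w)).subset ?_
  intro x hx
  simp only [Set.mem_preimage, Set.mem_singleton_iff] at hx
  simp only [Set.mem_ofPred_eq]
  rw [zsmul_sub] at hx
  rw [← hx]; abel

/-- the roots of an atomless measure are atomless -/
lemma root_atomless {n : ℕ} {μ ρ : Measure TT} [IsProbabilityMeasure μ] [IsProbabilityMeasure ρ]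
    (hρ : nfold n ρ = μ) (h : ∀ x, μ {x} = 0) (z : TT) : ρ {z} = 0 := by
  have h1 := nfold_point_ge n ρ z
  rw [hρ, h] at h1
  by_contra hne
  have : 0 < ρ {z} ^ n := ENNReal.pow_pos (pos_iff_ne_zero.2 hne) n
  exact absurd (le_antisymm h1 zero_le) this.ne'

end Pool.Agent.L7h55.IDT
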