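import Mathlib

/-!
Schoenberg's theorem for conditionally negative definite functions on `ℤ`.
-/

set_option autoImplicit false
open Filter Topology
open scoped Nat ComplexOrder

namespace Pool.Agent.L7h55.IDT

lemma psd_of {n : ℕ} {K : Fin n → Fin n → ℝ} (hsym : ∀ i j, K i j = K j i)
    (hpos : ∀ w : Fin n → ℝ, 0 ≤ ∑ i, ∑ j, w i * w j * K i j) :
    (Matrix.of K).PosSemidef := by
  rw [Matrix.posSemidef_iff_dotProduct_mulVec]
  refine ⟨?_, fun w => ?_⟩
  · ext i j
    simp only [Matrix.conjTranspose_apply, Matrix.of_apply, star_trivial]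
    exact hsym j i
  · refine (hpos w).trans_eq ?_
    simp only [dotProduct, Matrix.mulVec, Matrix.of_apply, star_trivial, Finset.mul_sum]
    refine Finset.sum_congr rfl fun i _ => Finset.sum_congr rfl fun j _ => ?_
    ring

lemma psd_form {n : ℕ} {K : Fin n → Fin n → ℝ} (h : (Matrix.of K).PosSemidef) (w : Fin n → ℝ) :
    0 ≤ ∑ i, ∑ j, w i * w j * K i j := by
  have h1 := (Matrix.posSemidef_iff_dotProduct_mulVec.1 h).2 w
  refine h1.trans_eq ?_
  simp only [dotProduct, Matrix.mulVec, Matrix.of_apply, star_trivial, Finset.mul_sum]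
  refine Finset.sum_congr rfl fun i _ => Finset.sum_congr rfl fun j _ => ?_
  ring

/-- the exponential of a positive semidefinite kernel -/
lemma exp_kernel {n : ℕ} {K : Fin n → Fin n → ℝ} (hsym : ∀ i j, K i j = K j i)
    (hpos : ∀ w : Fin n → ℝ, 0 ≤ ∑ i, ∑ j, w i * w j * K i j) (w : Fin n → ℝ) :
    0 ≤ ∑ i, ∑ j, w i * w j * Real.exp (K i j) := by
  have hM := psd_of hsym hpos
  have hP : ∀ k : ℕ, (Matrix.of fun i j => K i j ^ k).PosSemidef := by
    intro k
    induction k with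
    | zero =>
      apply psd_of (fun _ _ => by simp)
      intro w
      have : ∑ i, ∑ j, w i * w j * (K i j ^ 0) = (∑ i, w i) ^ 2 := by
        simp only [pow_zero, mul_one]
        rw [sq, Finset.sum_mul_sum]
      rw [this]; positivity
    | succ k ih =>
      have e : (Matrix.of fun i j => K i j ^ (k + 1)) =
          Matrix.hadamard (Matrix.of fun i j => K i j ^ k) (Matrix.of K) := by
        ext i j
        simp [Matrix.hadamard_apply, pow_succ]
      rw [e]
      exact ih.hadamard hM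
  have hs : ∀ i j, HasSum (fun k : ℕ => K i j ^ k / k !) (Real.exp (K i j)) := by
    intro i j
    rw [Real.exp_eq_exp_ℝ]
    exact NormedSpace.expSeries_div_hasSum_exp (K i j)
  have h1 : HasSum (fun k : ℕ => ∑ i, ∑ j, w i * w j * (K i j ^ k / k !))
      (∑ i, ∑ j, w i * w j * Real.exp (K i j)) :=
    hasSum_sum fun i _ => hasSum_sum fun j _ => (hs i j).mul_left _
  refine h1.nonneg fun k => ?_
  have h2 := psd_form (hP k) w
  have e : ∑ i, ∑ j, w i * w j * (K i j ^ k / k !) = (∑ i, ∑ j, w i * w j * K i j ^ k) / k ! := by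
    rw [Finset.sum_div]
    refine Finset.sum_congr rfl fun i _ => ?_
    rw [Finset.sum_div]
    refine Finset.sum_congr rfl fun j _ => ?_
    ring
  rw [e]
  positivity

/-- from real to complex weights -/
lemma cplx {n : ℕ} {K : Fin n → Fin n → ℝ} (hsym : ∀ i j, K i j = K j i)
    (hpos : ∀ w : Fin n → ℝ, 0 ≤ ∑ i, ∑ j, w i * w j * K i j) (a : Fin n → ℂ) :
    0 ≤ ∑ i, ∑ j, star (a j) * a i * (K i j : ℂ) := by
  rw [Complex.nonneg_iff]
  constructor
  · have h1 := hpos fun i => (a i).re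
    have h2 := hpos fun i => (a i).im
    have e : (∑ i, ∑ j, star (a j) * a i * (K i j : ℂ)).re =
        ∑ i, ∑ j, (a i).re * (a j).re * K i j + ∑ i, ∑ j, (a i).im * (a j).im * K i j := by
      rw [Complex.re_sum, ← Finset.sum_add_distrib]
      refine Finset.sum_congr rfl fun i _ => ?_
      rw [Complex.re_sum, ← Finset.sum_add_distrib]
      refine Finset.sum_congr rfl fun j _ => ?_
      simp [Complex.mul_re, Complex.mul_im]
      ring
    rw [e]
    exact add_nonneg h1 h2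
  · have e : (∑ i, ∑ j, star (a j) * a i * (K i j : ℂ)).im =
        ∑ i, ∑ j, (a j).re * (a i).im * K i j - ∑ i, ∑ j, (a j).im * (a i).re * K i j := by
      rw [Complex.im_sum, ← Finset.sum_sub_distrib]
      refine Finset.sum_congr rfl fun i _ => ?_
      rw [Complex.im_sum, ← Finset.sum_sub_distrib]
      refine Finset.sum_congr rfl fun j _ => ?_
      simp [Complex.mul_re, Complex.mul_im]
      ring
    rw [e]
    have h3 : ∑ i, ∑ j, (a j).im * (a i).re * K i j = ∑ i, ∑ j, (a j).re * (a i).im * K i j := by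
      rw [Finset.sum_comm]
      refine Finset.sum_congr rfl fun i _ => Finset.sum_congr rfl fun j _ => ?_
      rw [hsym]; ring
    rw [h3, sub_self]

/-- **Schoenberg's theorem.** -/
theorem schoenberg {f : ℤ → ℝ} (h0 : f 0 = 0) (hev : ∀ n, f (-n) = f n)
    (hneg : ∀ (n : ℕ) (x : Fin n → ℤ) (w : Fin n → ℝ), ∑ i, w i = 0 →
      ∑ i, ∑ j, w i * w j * f (x i - x j) ≤ 0) {s : ℝ} (hs : 0 ≤ s) (N : ℕ) (a : ℕ → ℂ) :
    0 ≤ ∑ j ∈ Finset.range N, ∑ k ∈ Finset.range N,
      star (a k) * a j * (Real.exp (-s * f ((j : ℤ) - k)) : ℂ) := by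
  -- the kernel
  have hK : ∀ w : Fin N → ℝ, 0 ≤ ∑ i, ∑ j, w i * w j *
      (s * (f ((i : ℕ) : ℤ) + f ((j : ℕ) : ℤ) - f (((i : ℕ) : ℤ) - ((j : ℕ) : ℤ)))) := by
    intro w
    have h1 := hneg (N + 1) (Fin.cons 0 fun i : Fin N => ((i : ℕ) : ℤ))
      (Fin.cons (-∑ i, w i) w) (by rw [Fin.sum_univ_succ]; simp)
    simp only [Fin.sum_univ_succ, Fin.cons_zero, Fin.cons_succ, sub_zero, zero_sub, h0, hev,
      mul_zero, zero_add] at h1
    set W := ∑ i, w i with hW
    have e1 : ∑ i : Fin N, -W * w i * f ((i : ℕ) : ℤ) = -W * ∑ i, w i * f ((i : ℕ) : ℤ) := by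
      rw [Finset.mul_sum]
      exact Finset.sum_congr rfl fun i _ => by ring
    have e2 : ∑ i : Fin N, (w i * -W * f ((i : ℕ) : ℤ) +
        ∑ j : Fin N, w i * w j * f (((i : ℕ) : ℤ) - ((j : ℕ) : ℤ))) =
        -W * ∑ i, w i * f ((i : ℕ) : ℤ) +
        ∑ i : Fin N, ∑ j : Fin N, w i * w j * f (((i : ℕ) : ℤ) - ((j : ℕ) : ℤ)) := by
      rw [Finset.sum_add_distrib, Finset.mul_sum]
      congr 1
      exact Finset.sum_congr rfl fun i _ => by ring
    rw [e1, e2] at h1
    have e3 : ∑ i : Fin N, ∑ j : Fin N, w i * w j *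
        (s * (f ((i : ℕ) : ℤ) + f ((j : ℕ) : ℤ) - f (((i : ℕ) : ℤ) - ((j : ℕ) : ℤ)))) =
        s * (2 * W * ∑ i, w i * f ((i : ℕ) : ℤ) -
        ∑ i : Fin N, ∑ j : Fin N, w i * w j * f (((i : ℕ) : ℤ) - ((j : ℕ) : ℤ))) := by
      have e4 : ∑ i : Fin N, ∑ j : Fin N, w i * w j * f ((i : ℕ) : ℤ) =
          W * ∑ i, w i * f ((i : ℕ) : ℤ) := by
        rw [Finset.mul_sum]
        refine Finset.sum_congr rfl fun i _ => ?_
        rw [hW, Finset.sum_mul]
        exact Finset.sum_congr rfl fun j _ => by ring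
      have e5 : ∑ i : Fin N, ∑ j : Fin N, w i * w j * f ((j : ℕ) : ℤ) =
          W * ∑ i, w i * f ((i : ℕ) : ℤ) := by
        rw [Finset.sum_comm, Finset.mul_sum]
        refine Finset.sum_congr rfl fun i _ => ?_
        rw [hW, Finset.sum_mul]
        exact Finset.sum_congr rfl fun j _ => by ring
      calc _ = s * (∑ i : Fin N, ∑ j : Fin N, w i * w j * f ((i : ℕ) : ℤ) +
            ∑ i : Fin N, ∑ j : Fin N, w i * w j * f ((j : ℕ) : ℤ) -
            ∑ i : Fin N, ∑ j : Fin N, w i * w j * f (((i : ℕ) : ℤ) - ((j : ℕ) : ℤ))) := by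
            rw [← Finset.sum_add_distrib, ← Finset.sum_sub_distrib, Finset.mul_sum]
            refine Finset.sum_congr rfl fun i _ => ?_
            rw [← Finset.sum_add_distrib, ← Finset.sum_sub_distrib, Finset.mul_sum]
            exact Finset.sum_congr rfl fun j _ => by ring
        _ = _ := by rw [e4, e5]; ring
    rw [e3]
    apply mul_nonneg hs
    linarith
  have hsym : ∀ i j : Fin N, s * (f ((i : ℕ) : ℤ) + f ((j : ℕ) : ℤ) -
      f (((i : ℕ) : ℤ) - ((j : ℕ) : ℤ))) = s * (f ((j : ℕ) : ℤ) + f ((i : ℕ) : ℤ) -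
      f (((j : ℕ) : ℤ) - ((i : ℕ) : ℤ))) := by
    intro i j
    rw [← hev (((i : ℕ) : ℤ) - ((j : ℕ) : ℤ)), neg_sub]
    ring
  have hE := exp_kernel hsym hK
  have hreal : ∀ w : Fin N → ℝ, 0 ≤ ∑ i, ∑ j, w i * w j *
      Real.exp (-s * f (((i : ℕ) : ℤ) - ((j : ℕ) : ℤ))) := by
    intro w
    refine (hE fun i => w i * Real.exp (-s * f ((i : ℕ) : ℤ))).trans_eq ?_
    refine Finset.sum_congr rfl fun i _ => Finset.sum_congr rfl fun j _ => ?_
    have : Real.exp (-s * f (((i : ℕ) : ℤ) - ((j : ℕ) : ℤ))) =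
        Real.exp (-s * f ((i : ℕ) : ℤ)) * Real.exp (-s * f ((j : ℕ) : ℤ)) *
        Real.exp (s * (f ((i : ℕ) : ℤ) + f ((j : ℕ) : ℤ) - f (((i : ℕ) : ℤ) - ((j : ℕ) : ℤ)))) := by
      rw [← Real.exp_add, ← Real.exp_add]
      congr 1; ring
    rw [this]; ring
  have h2 := cplx (K := fun i j : Fin N => Real.exp (-s * f (((i : ℕ) : ℤ) - ((j : ℕ) : ℤ))))
    (fun i j => by
      rw [← hev (((i : ℕ) : ℤ) - ((j : ℕ) : ℤ)), neg_sub]) hreal (fun i => a i)
  rw [Finset.sum_range fun j => ∑ k ∈ Finset.range N,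
      star (a k) * a j * (Real.exp (-s * f ((j : ℤ) - k)) : ℂ)]
  refine h2.trans_eq ?_
  refine Finset.sum_congr rfl fun i _ => ?_
  rw [Finset.sum_range fun k => star (a k) * a i * (Real.exp (-s * f (((i : ℕ) : ℤ) - k)) : ℂ)]

end Pool.Agent.L7h55.IDT
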