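import Mathlib
import Pool.Agent.L7h55.IDT.Meas
import Pool.Agent.L7h55.IDT.Schoen
import Pool.Agent.Y253.TR.Basic
import Pool.Agent.Y253.TR.Dict
import Pool.Agent.R481.TraceBT
import Pool.Agent.TH463.UQ.Trace

/-!
Tracial states of `C*(ℤ² ⋉ ℤ[1/6])`: the gap.
-/

set_option autoImplicit false
open MeasureTheory Filter Topology
open scoped NNReal ENNReal ComplexOrder

namespace Pool.Agent.L7h55.IDT

open Pool.Agent.R203.ID Pool.Agent.L7h55.ID Pool.Agent.W763.Tr Pool.Agent.TH654.FC
open Pool.Agent.Y253.TR (TS)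

/-- the translations -/
def Transl (G : Subgroup (Equiv.Perm ℚ)) : Set G :=
  {g | ∃ r : ℚ, ∀ x : ℚ, (g : Equiv.Perm ℚ) x = x + r}

/-- no conditionally finite-dimensional part -/
def Diffuse {G : Subgroup (Equiv.Perm ℚ)} (φ : G → ℂ) : Prop := ∀ g ∈ Transl G, g ≠ 1 →
  Tendsto (fun N : ℕ => (∑ n ∈ Finset.range N, ‖φ (g ^ n)‖ ^ 2) / N) atTop (𝓝 0)

/-- conditionally negative definite functions on the translations which are constant on classes -/
structure NegDef {G : Subgroup (Equiv.Perm ℚ)} (ψ : G → ℝ) : Prop where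
  one : ψ 1 = 0
  inv : ∀ g ∈ Transl G, ψ g⁻¹ = ψ g
  conj : ∀ g h : G, ψ (h * g * h⁻¹) = ψ g
  neg : ∀ (n : ℕ) (x : Fin n → G) (w : Fin n → ℝ), (∀ i, x i ∈ Transl G) → ∑ i, w i = 0 →
    ∑ i, ∑ j, w i * w j * ψ ((x j)⁻¹ * x i) ≤ 0

section

variable {G : Subgroup (Equiv.Perm ℚ)} {τ : ℤ → G} {φ : G → ℂ} {S6 : G} {μ : Measure UnitAddCircle}

lemma tau_pow (hτ : ∀ (k : ℤ) (x : ℚ), (τ k : Equiv.Perm ℚ) x = x + k) (m : ℤ) (n : ℕ) :
    τ m ^ n = τ (m * n) := by
  induction n with
  | zero => simp [tau_zero hτ]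
  | succ n ih =>
    rw [pow_succ, ih, tau_add hτ]
    congr 1; push_cast; ring

lemma tau_ne {hτ : ∀ (k : ℤ) (x : ℚ), (τ k : Equiv.Perm ℚ) x = x + k} {m : ℤ} (hm : m ≠ 0) :
    τ m ≠ 1 := by
  intro h
  have h1 := hτ m 0
  rw [h] at h1
  simp only [OneMemClass.coe_one, Equiv.Perm.coe_one, id_eq, zero_add] at h1
  exact hm (by exact_mod_cast h1.symm)

lemma tau_mem (hτ : ∀ (k : ℤ) (x : ℚ), (τ k : Equiv.Perm ℚ) x = x + k) (m : ℤ) : τ m ∈ Transl G :=
  ⟨m, hτ m⟩

lemma hat_eq (D : Data G τ φ S6 μ) (n : ℤ) : hat μ n = φ (τ n) := D.hμ n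

/-- diffuse traces and atomless measures -/
lemma diffuse_iff (D : Data G τ φ S6 μ) : Diffuse φ ↔ ∀ x, μ {x} = 0 := by
  have := D.prob
  constructor
  · intro h
    have h1 := h (τ 1) (tau_mem D.hτ 1) (tau_ne (hτ := D.hτ) one_ne_zero)
    simp only [tau_pow D.hτ, one_mul, ← hat_eq D] at h1
    exact atomless_of_mean μ h1
  · rintro hat' g ⟨r, hr⟩ hg1
    obtain ⟨m, hm, hn⟩ := Pool.Agent.TH463.UQ.pow' D hg1 hr
    have hmeas : Measurable fun x : TT => m • x := by fun_prop
    have hp : IsProbabilityMeasure (μ.map fun x : TT => m • x) :=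
      Measure.isProbabilityMeasure_map hmeas.aemeasurable
    have h1 := Pool.Agent.N317.TS.wiener (μ.map fun x : TT => m • x) (fun x => by
      rw [Measure.map_apply hmeas (measurableSet_singleton x)]
      exact finite_null hat' (finite_zsmul hm x))
    refine h1.congr fun N => ?_
    rw [one_div, inv_mul_eq_div]
    congr 1
    refine Finset.sum_congr rfl fun n _ => ?_
    have h2 := hat_map_smul μ m n
    unfold hat at h2
    rw [h2, hn n, ← hat_eq D, mul_comm]
    rfl

/-- translations and integers -/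
lemma transl_int (D : Data G τ φ S6 μ) {g : G} (hg : g ∈ Transl G) (hg1 : g ≠ 1) :
    ∃ m : ℤ, m ≠ 0 ∧ φ g = hat μ m := by
  obtain ⟨r, hr⟩ := hg
  obtain ⟨m, hm, hn⟩ := Pool.Agent.TH463.UQ.pow' D hg1 hr
  refine ⟨m, hm, ?_⟩
  have := hn 1
  rwa [pow_one, Nat.cast_one, mul_one, ← hat_eq D] at this

/-- the gap for diffuse traces -/
lemma gap_diffuse {c : ℝ} (hG : Gap 2 3 c) (D : Data G τ φ S6 μ) (hd : Diffuse φ) {g : G}
    (hg : g ∈ Transl G) (hg1 : g ≠ 1) : (φ g).re ≤ 1 - c := by
  have := D.prob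
  obtain ⟨m, hm, he⟩ := transl_int D hg hg1
  rw [he]
  exact gap_all hG μ D.mp2 D.mp3 m (finite_null ((diffuse_iff D).1 hd) (finite_zsmul hm 0))

/-- the kernel of an extreme trace whose measure has an atom of finite order -/
lemma kernel_self (D : Data G τ φ S6 μ)
    (hext : φ ∈ Set.extremePoints ℝ {ψ : G → ℂ | ψ 1 = 1 ∧ (∀ g h : G, ψ (h * g * h⁻¹) = ψ g) ∧
        ∀ (s : Finset G) (c : G → ℂ), 0 ≤ ∑ i ∈ s, ∑ j ∈ s, star (c j) * c i * ψ (j⁻¹ * i)})
    {N : ℕ} (hN : μ {x : UnitAddCircle | N • x = 0} ≠ 0) (n : ℤ) :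
    φ (τ (N * n)) = 1 := by
  have := D.prob
  set lam : ℝ := μ.real {x : UnitAddCircle | N • x = 0} with hlam
  have hpos : 0 < lam := by
    rw [hlam, Measure.real, ENNReal.toReal_pos_iff]
    exact ⟨pos_iff_ne_zero.mpr hN, measure_lt_top _ _⟩
  have hm : MeasurableSet {x : UnitAddCircle | N • x = 0} :=
    (isClosed_eq (by fun_prop) continuous_const).measurableSet
  have hnorm := D.normal N
  have key := extreme_kernel φ hext (transl G N) lam hpos (by
    intro ι t w b hb hw0 hw1
    -- common denominator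
    have hch : ∀ i : ι, ∃ (n : ℤ) (k : ℕ), i ∈ t → ∀ x, (b i : Equiv.Perm ℚ) x = x + N * (n / 6 ^ k) := by
      intro i
      by_cases hi : i ∈ t
      · obtain ⟨r, ⟨n, k, rfl⟩, h⟩ := hb i hi
        exact ⟨n, k, fun _ => h⟩
      · exact ⟨0, 0, fun h => absurd h hi⟩
    choose n0 k0 hn0 using hch
    set K := t.sup k0 with hK
    set n : ι → ℤ := fun i => n0 i * 6 ^ (K - k0 i) with hn
    have hbt : ∀ i ∈ t, ∀ x, (b i : Equiv.Perm ℚ) x = x + N * (n i / 6 ^ K) := by
      intro i hi x
      rw [hn0 i hi x, hn]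
      have hle : k0 i ≤ K := Finset.le_sup hi
      have e : (6 : ℚ) ^ K = 6 ^ (K - k0 i) * 6 ^ k0 i := by rw [← pow_add]; congr 1; omega
      have h6 : (6 : ℚ) ^ (K - k0 i) ≠ 0 := by positivity
      have h6' : (6 : ℚ) ^ (k0 i) ≠ 0 := by positivity
      push_cast
      rw [e]
      field_simp
    have hval : ∀ i ∈ t, ∀ j ∈ t, φ ((b j)⁻¹ * b i) = ∫ x, fourier (N * (n i - n j)) x ∂μ := by
      intro i hi j hj
      rw [D.hμ]
      refine phi_trans D.hτ D.hcl S6 D.hS6 _ _ K fun x => ?_
      rw [Subgroup.coe_mul, Equiv.Perm.mul_apply, Subgroup.coe_inv, Equiv.Perm.inv_eq_iff_eq,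
        hbt i hi, hbt j hj]
      push_cast
      field_simp
      ring
    set F : UnitAddCircle → ℂ := fun x => ∑ i ∈ t, (w i : ℂ) * fourier (N * n i) x with hF
    have hFc : Continuous F := by rw [hF]; fun_prop
    have hsq : ∀ x, ((‖F x‖ ^ 2 : ℝ) : ℂ) =
        ∑ i ∈ t, ∑ j ∈ t, (w j : ℂ) * w i * fourier (N * (n i - n j)) x := by
      intro x
      have e1 : ((‖F x‖ ^ 2 : ℝ) : ℂ) = F x * starRingEnd ℂ (F x) := by
        rw [Complex.mul_conj, Complex.normSq_eq_norm_sq]
      rw [e1, hF]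
      simp only
      rw [map_sum, Finset.sum_mul]
      refine Finset.sum_congr rfl fun i _ => ?_
      rw [Finset.mul_sum]
      refine Finset.sum_congr rfl fun j _ => ?_
      rw [map_mul, Complex.conj_ofReal, ← fourier_neg]
      have e2 : fourier (N * (n i - n j)) x = fourier (N * n i) x * fourier (-(N * n j)) x := by
        rw [← fourier_add]; congr 1; ring_nf
      rw [e2]; ring
    have hsum : ∑ i ∈ t, ∑ j ∈ t, (w j : ℂ) * w i * φ ((b j)⁻¹ * b i) =
        ∫ x, ((‖F x‖ ^ 2 : ℝ) : ℂ) ∂μ := by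
      simp only [hsq]
      have hi : ∀ m : ℤ, Integrable (fun x : UnitAddCircle => (fourier m x : ℂ)) μ := fun m =>
        (by fun_prop : Continuous (fun x : UnitAddCircle =>
          (fourier m x : ℂ))).integrable_of_hasCompactSupport (HasCompactSupport.of_compactSpace _)
      rw [integral_finsetSum]
      · refine Finset.sum_congr rfl fun i hi' => ?_
        rw [integral_finsetSum]
        · refine Finset.sum_congr rfl fun j hj' => ?_
          rw [integral_const_mul, hval i hi' j hj']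
        · intro j _
          exact (hi _).const_mul _
      · intro i _
        exact integrable_finsetSum _ fun j _ => (hi _).const_mul _
    rw [hsum, integral_complex_ofReal, Complex.ofReal_re, hlam]
    have hint : Integrable (fun x => ‖F x‖ ^ 2) μ :=
      Pool.Agent.H261R2.FU.int_sq_cont (by fun_prop)
    calc μ.real {x : UnitAddCircle | N • x = 0}
        = ∫ x, ({x : UnitAddCircle | N • x = 0}.indicator (fun _ => (1 : ℝ))) x ∂μ := by
          rw [integral_indicator hm]; simp [Measure.real]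
      _ ≤ ∫ x, ‖F x‖ ^ 2 ∂μ := by
          apply integral_mono ((integrable_const (1 : ℝ)).indicator hm) hint
          intro x
          by_cases hx : x ∈ {x : UnitAddCircle | N • x = 0}
          · rw [Set.indicator_of_mem hx]
            have h7 : F x = 1 := by
              rw [hF]
              simp only
              have h8 : ∀ i, fourier (N * n i) x = (1 : ℂ) := by
                intro i
                rw [fourier_eq_one, mul_comm, mul_smul, natCast_zsmul,
                  show N • x = 0 from hx, smul_zero]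
                simp
              simp only [h8, mul_one]
              have := congrArg (fun r : ℝ => (r : ℂ)) hw1
              simpa using this
            simp only [h7, norm_one, one_pow]
            exact le_rfl
          · rw [Set.indicator_of_notMem hx]; positivity)
  refine key _ ⟨n, ⟨n, 0, by simp⟩, fun x => ?_⟩
  rw [D.hτ]; push_cast; ring

/-- the gap for extreme traces -/
lemma gap_extreme {c : ℝ} (hG : Gap 2 3 c) (D : Data G τ φ S6 μ)
    (hext : φ ∈ (TS G).extremePoints ℝ) {g : G} (hg : g ∈ Transl G) :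
    φ g = 1 ∨ (φ g).re ≤ 1 - c := by
  have := D.prob
  by_cases hg1 : g = 1
  · left; rw [hg1, D.h1]
  obtain ⟨m, hm, he⟩ := transl_int D hg hg1
  by_cases h0 : μ {x | m • x = 0} = 0
  · right
    rw [he]
    exact gap_all hG μ D.mp2 D.mp3 m h0
  · left
    have e : {x : TT | m • x = 0} = {x : TT | m.natAbs • x = 0} := by
      ext x
      simp only [Set.mem_ofPred_eq]
      rcases Int.natAbs_eq m with h | h
      · constructor
        · intro hx; rw [h, natCast_zsmul] at hx; exact hx
        · intro hx; rw [h, natCast_zsmul]; exact hx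
      · constructor
        · intro hx; rw [h, neg_zsmul, natCast_zsmul, neg_eq_zero] at hx; exact hx
        · intro hx; rw [h, neg_zsmul, natCast_zsmul, neg_eq_zero]; exact hx
    rw [e] at h0
    rw [he, hat_eq D]
    rcases Int.natAbs_eq m with h | h
    · have := kernel_self D hext h0 1
      rw [mul_one, ← h] at this
      exact this
    · have := kernel_self D hext h0 (-1)
      rw [mul_neg_one, ← h] at this
      exact this

end

end Pool.Agent.L7h55.IDT
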