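import Mathlib
import Pool.Agent.L7h55.IDT.Tr

/-!
Tracial states of `C*(ℤ² ⋉ ℤ[1/6])`: the gap, infinitely divisible traces and conditionally
negative definite functions.
-/

set_option autoImplicit false
open MeasureTheory Filter Topology
open scoped NNReal ENNReal ComplexOrder

namespace Pool.Agent.L7h55.IDT

open Pool.Agent.R203.ID Pool.Agent.L7h55.ID Pool.Agent.W763.Tr Pool.Agent.TH654.FC
open Pool.Agent.Y253.TR (TS)

/-- the elements of the group -/
structure Basics (G : Subgroup (Equiv.Perm ℚ)) (τ : ℤ → G) (S2 S3 S6 : G) : Prop where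
  hτ : ∀ (k : ℤ) (x : ℚ), (τ k : Equiv.Perm ℚ) x = x + k
  hS2 : ∀ x, (S2 : Equiv.Perm ℚ) x = (2 : ℤ) * x
  hS3 : ∀ x, (S3 : Equiv.Perm ℚ) x = (3 : ℤ) * x
  hS6 : ∀ x, (S6 : Equiv.Perm ℚ) x = 6 * x
  hform : ∀ g : G, ∃ (a b : ℤ) (r : ℚ), Six r ∧ ∀ x, (g : Equiv.Perm ℚ) x = 2 ^ a * 3 ^ b * x + r
  meas : ∀ (μ : Measure UnitAddCircle) [IsProbabilityMeasure μ],
    MeasurePreserving (fun x : UnitAddCircle => 2 • x) μ μ →
    MeasurePreserving (fun x : UnitAddCircle => 3 • x) μ μ →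
    ∃ φ : G → ℂ, φ 1 = 1 ∧ (∀ g h : G, φ (h * g * h⁻¹) = φ g) ∧ PD φ ∧
      (∀ (g : G) (n : ℤ) (k : ℕ), (∀ x, (g : Equiv.Perm ℚ) x = x + n / 6 ^ k) →
        φ g = ∫ x, (fourier n x : ℂ) ∂μ) ∧
      (∀ g : G, (¬ ∃ r : ℚ, ∀ x, (g : Equiv.Perm ℚ) x = x + r) → φ g = 0)
  data : ∀ φ ∈ TS G, ∃ μ : Measure UnitAddCircle, Data G τ φ S6 μ

lemma basics {s2 s3 t : Equiv.Perm ℚ} (hs2 : ∀ x, s2 x = 2 * x) (hs3 : ∀ x, s3 x = 3 * x)
    (ht : ∀ x, t x = x + 1) {G : Subgroup (Equiv.Perm ℚ)} (hG : G = Subgroup.closure {s2, s3, t}) :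
    ∃ (τ : ℤ → G) (S2 S3 S6 : G), Basics G τ S2 S3 S6 := by
  have m2 : s2 ∈ G := by rw [hG]; exact Subgroup.subset_closure (by simp)
  have m3 : s3 ∈ G := by rw [hG]; exact Subgroup.subset_closure (by simp)
  have mt : t ∈ G := by rw [hG]; exact Subgroup.subset_closure (by simp)
  let S2 : G := ⟨s2, m2⟩
  let S3 : G := ⟨s3, m3⟩
  have hS2 : ∀ x, (S2 : Equiv.Perm ℚ) x = (2 : ℤ) * x := fun x => by
    change s2 x = _; rw [hs2]; norm_num
  have hS3 : ∀ x, (S3 : Equiv.Perm ℚ) x = (3 : ℤ) * x := fun x => by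
    change s3 x = _; rw [hs3]; norm_num
  let S6 : G := S2 * S3
  have hS6 : ∀ x, (S6 : Equiv.Perm ℚ) x = 6 * x := fun x => by
    change s2 (s3 x) = _
    rw [hs2, hs3]; ring
  let T1 : G := ⟨t, mt⟩
  let τ : ℤ → G := fun k => T1 ^ k
  have hT1 : ∀ x, (T1 : Equiv.Perm ℚ) x = x + 1 := fun x => ht x
  have hτ : ∀ (k : ℤ) (x : ℚ), (τ k : Equiv.Perm ℚ) x = x + k := by
    intro k
    induction k with
    | zero => intro x; simp [τ]
    | succ n ih =>
      intro x
      have : τ (n + 1) = τ n * T1 := by simp only [τ]; rw [zpow_add_one]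
      rw [this, Subgroup.coe_mul, Equiv.Perm.mul_apply, hT1, ih]
      push_cast; ring
    | pred n ih =>
      intro x
      have : τ (-n) = τ (-n - 1) * T1 := by simp only [τ]; rw [← zpow_add_one]; congr 1; ring
      have h5 := ih (x - 1)
      rw [this, Subgroup.coe_mul, Equiv.Perm.mul_apply, hT1] at h5
      rw [sub_add_cancel] at h5
      rw [h5]; push_cast; ring
  have hform : ∀ g : G, ∃ (a b : ℤ) (r : ℚ), Six r ∧
      ∀ x, (g : Equiv.Perm ℚ) x = 2 ^ a * 3 ^ b * x + r := fun g =>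
    form hs2 hs3 ht g (by rw [← hG]; exact g.2)
  refine ⟨τ, S2, S3, S6, hτ, hS2, hS3, hS6, hform, fun μ hμ h2 h3 => ?_, fun φ hφ => ?_⟩
  · exact Pool.Agent.Y253.TR.trace_of_measure hs2 hs3 ht hG μ h2 h3
  · obtain ⟨τ', S6', μ, D⟩ := data_of hs2 hs3 ht hG hφ.1 hφ.2.1 hφ.2.2
    have e1 : τ' = τ := by
      funext k
      apply Subtype.ext
      apply Equiv.ext
      intro x
      rw [D.hτ, hτ]
    have e2 : S6' = S6 := by
      apply Subtype.ext
      apply Equiv.ext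
      intro x
      rw [D.hS6, hS6]
    rw [e1, e2] at D
    exact ⟨μ, D⟩

section

variable {G : Subgroup (Equiv.Perm ℚ)} {τ : ℤ → G} {S2 S3 S6 : G}

/-- the trace of a measure -/
lemma Basics.of_meas (B : Basics G τ S2 S3 S6) (μ : Measure UnitAddCircle) [IsProbabilityMeasure μ]
    (h2 : MeasurePreserving (fun x : UnitAddCircle => 2 • x) μ μ)
    (h3 : MeasurePreserving (fun x : UnitAddCircle => 3 • x) μ μ) :
    ∃ φ ∈ TS G, Data G τ φ S6 μ ∧ (∀ g ∉ Transl G, φ g = 0) ∧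
      ∀ (g : G) (n : ℤ) (k : ℕ), (∀ x, (g : Equiv.Perm ℚ) x = x + n / 6 ^ k) → φ g = hat μ n := by
  obtain ⟨φ, a1, a2, a3, a4, a5⟩ := B.meas μ h2 h3
  have hc2 : ∀ n : ℤ, φ (τ (2 * n)) = φ (τ n) := fun n => by
    rw [← tau_conj B.hτ S2 2 B.hS2 n, a2]
  have hc3 : ∀ n : ℤ, φ (τ (3 * n)) = φ (τ n) := fun n => by
    rw [← tau_conj B.hτ S3 3 B.hS3 n, a2]
  refine ⟨φ, ⟨a1, a2, a3⟩, ⟨B.hτ, a1, a2, a3, B.hS6, B.hform, hc2, hc3, fun n => ?_,
    inferInstance, h2, h3⟩, fun g hg => a5 g hg, fun g n k hg => a4 g n k hg⟩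
  rw [a4 (τ n) n 0 (fun x => by rw [B.hτ]; simp)]

/-- translations of the group -/
lemma Basics.six (B : Basics G τ S2 S3 S6) {g : G} (hg : g ∈ Transl G) :
    ∃ (n : ℤ) (k : ℕ), ∀ x, (g : Equiv.Perm ℚ) x = x + n / 6 ^ k := by
  obtain ⟨r, hr⟩ := hg
  obtain ⟨a, b, r', ⟨n, k, hr'⟩, h⟩ := B.hform g
  have e0 := h 0
  rw [hr, mul_zero, zero_add, zero_add] at e0
  exact ⟨n, k, fun x => by rw [hr, e0, hr']⟩

lemma Basics.int (B : Basics G τ S2 S3 S6) {g : G} (hg : g ∈ Transl G) :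
    ∃ n : ℤ, ∀ φ : G → ℂ, (∀ g h : G, φ (h * g * h⁻¹) = φ g) → φ g = φ (τ n) := by
  obtain ⟨n, k, h⟩ := B.six hg
  exact ⟨n, fun φ hcl => phi_trans B.hτ hcl S6 B.hS6 g n k h⟩

/-- a conditionally negative definite function is controlled by its value at one -/
theorem cnd_unif (B : Basics G τ S2 S3 S6) {c : ℝ} (hc : 0 < c) (hGap : Gap 2 3 c) {ψ : G → ℝ}
    (hψ : NegDef ψ) {g : G} (hg : g ∈ Transl G) : ψ g ≤ 2 / c * ψ (τ 1) := by
  obtain ⟨m, hm⟩ := B.int hg
  have e : ψ g = ψ (τ m) := by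
    have := hm (fun g => (ψ g : ℂ)) (fun g h => by rw [hψ.conj])
    exact_mod_cast this
  rw [e]
  set f : ℤ → ℝ := fun n => ψ (τ n) with hf
  have h0 : f 0 = 0 := by rw [hf]; simp only [tau_zero B.hτ, hψ.one]
  have hev : ∀ n, f (-n) = f n := by
    intro n
    simp only [hf]
    rw [← tau_inv B.hτ, hψ.inv _ (tau_mem B.hτ n)]
  have hneg : ∀ (n : ℕ) (x : Fin n → ℤ) (w : Fin n → ℝ), ∑ i, w i = 0 →
      ∑ i, ∑ j, w i * w j * f (x i - x j) ≤ 0 := by
    intro n x w hw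
    refine le_of_eq_of_le ?_ (hψ.neg n (fun i => τ (x i)) w (fun i => tau_mem B.hτ _) hw)
    refine Finset.sum_congr rfl fun i _ => Finset.sum_congr rfl fun j _ => ?_
    simp only [hf]
    rw [tau_inv B.hτ, tau_add B.hτ]
    congr 3; ring
  have hnn : ∀ n, 0 ≤ f n := by
    intro n
    have := hneg 2 ![0, n] ![1, -1] (by simp)
    simp only [Fin.sum_univ_two, Matrix.cons_val_zero, Matrix.cons_val_one, sub_self, h0,
      zero_sub, sub_zero, hev] at this
    linarith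
  have key : ∀ s : ℝ, 0 < s → f m ≤ 2 / c * f 1 * (1 + s * f m) := by
    intro s hs
    obtain ⟨μ, hμp, hμ⟩ := herglotz (c := fun n => (Real.exp (-s * f n) : ℂ))
      (by simp [h0]) (schoenberg h0 hev hneg hs.le)
    have hm2 : MeasurePreserving (fun x : TT => 2 • x) μ μ := mp_nsmul hμ (k := 2) (fun n => by
      have : f (n * (2 : ℕ)) = f n := by
        simp only [hf]
        have h := tau_conj B.hτ S2 2 B.hS2 n
        rw [mul_comm, show ((2 : ℕ) : ℤ) = 2 by norm_num, ← h, hψ.conj]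
      rw [this])
    have hm3 : MeasurePreserving (fun x : TT => 3 • x) μ μ := mp_nsmul hμ (k := 3) (fun n => by
      have : f (n * (3 : ℕ)) = f n := by
        simp only [hf]
        have h := tau_conj B.hτ S3 3 B.hS3 n
        rw [mul_comm, show ((3 : ℕ) : ℤ) = 3 by norm_num, ← h, hψ.conj]
      rw [this])
    have h1 := gap_lin hc hGap μ hm2 hm3 m
    have hh : ∀ n : ℤ, (hat μ n).re = Real.exp (-s * f n) := by
      intro n
      have : hat μ n = (Real.exp (-s * f n) : ℂ) := hμ n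
      rw [this, Complex.ofReal_re]
    rw [hh, hh] at h1
    have h2 : 1 - Real.exp (-s * f 1) ≤ s * f 1 := by
      have := Real.add_one_le_exp (-s * f 1)
      linarith
    have h3 : s * f m ≤ (1 - Real.exp (-s * f m)) * (1 + s * f m) := by
      have hu : 0 ≤ s * f m := mul_nonneg hs.le (hnn m)
      have h4 := Real.add_one_le_exp (s * f m)
      have h5 : Real.exp (-s * f m) * Real.exp (s * f m) = 1 := by
        rw [← Real.exp_add]; simp
      have h6 : Real.exp (-s * f m) * (1 + s * f m) ≤ 1 := by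
        calc Real.exp (-s * f m) * (1 + s * f m) ≤ Real.exp (-s * f m) * Real.exp (s * f m) := by
              apply mul_le_mul_of_nonneg_left _ (Real.exp_pos _).le
              linarith
          _ = 1 := h5
      nlinarith
    have h7 : s * f m ≤ (2 / c * (s * f 1)) * (1 + s * f m) := by
      refine h3.trans ?_
      have hu : 0 ≤ s * f m := mul_nonneg hs.le (hnn m)
      have h8 : 1 - Real.exp (-s * f m) ≤ 2 / c * (s * f 1) :=
        h1.trans (mul_le_mul_of_nonneg_left h2 (by positivity))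
      exact mul_le_mul_of_nonneg_right h8 (by linarith)
    have h8 : s * f m ≤ s * (2 / c * f 1 * (1 + s * f m)) := by
      refine h7.trans_eq ?_
      ring
    exact le_of_mul_le_mul_left h8 hs
  have hlim : Tendsto (fun s : ℝ => 2 / c * f 1 * (1 + s * f m)) (𝓝[>] 0)
      (𝓝 (2 / c * f 1 * (1 + 0 * f m))) := by
    apply Tendsto.mono_left _ nhdsWithin_le_nhds
    exact (Continuous.tendsto (by fun_prop) 0)
  have h9 : f m ≤ 2 / c * f 1 * (1 + 0 * f m) :=
    ge_of_tendsto hlim (by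
      filter_upwards [self_mem_nhdsWithin] with s hs
      exact key s hs)
  simpa using h9

/-- a quadratic bound -/
lemma re_sq_bound (μ : Measure TT) [IsProbabilityMeasure μ] (n : ℕ) :
    1 - (hat μ n).re ≤ (n : ℝ) ^ 2 * (1 - (hat μ 1).re) := by
  rw [hat_re, hat_re, ← integral_const_mul]
  refine integral_mono ((integrable_const _).sub (integrable_f μ n).re)
    (((integrable_const _).sub (integrable_f μ 1).re).const_mul _) fun x => ?_
  simp only
  have hz : ‖(fourier 1 x : ℂ)‖ = 1 := norm_f 1 x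
  have hzn : (fourier (n : ℤ) x : ℂ) = (fourier 1 x) ^ n := fourier_coe_pow n x
  set z : ℂ := fourier 1 x with hzdef
  have h1 : ∀ w : ℂ, ‖w‖ = 1 → 1 - w.re = ‖1 - w‖ ^ 2 / 2 := by
    intro w hw
    have h2 : ‖w‖ ^ 2 = w.re * w.re + w.im * w.im := by
      rw [← Complex.normSq_eq_norm_sq, Complex.normSq_apply]
    have h3 : ‖1 - w‖ ^ 2 = (1 - w).re * (1 - w).re + (1 - w).im * (1 - w).im := by
      rw [← Complex.normSq_eq_norm_sq, Complex.normSq_apply]
    rw [h3]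
    simp only [Complex.sub_re, Complex.one_re, Complex.sub_im, Complex.one_im]
    rw [hw] at h2
    nlinarith
  have h4 : ‖1 - z ^ n‖ ≤ n * ‖1 - z‖ := by
    have h5 : 1 - z ^ n = (1 - z) * ∑ i ∈ Finset.range n, z ^ i := by
      rw [mul_comm, ← neg_sub z 1, mul_neg, geom_sum_mul]; ring
    rw [h5, norm_mul, mul_comm]
    apply mul_le_mul_of_nonneg_right _ (norm_nonneg _)
    refine (norm_sum_le _ _).trans ?_
    simp [norm_pow, hz]
  rw [hzn, h1 _ (by rw [norm_pow, hz, one_pow]), h1 _ hz]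
  have h6 : ‖1 - z ^ n‖ ^ 2 ≤ (n * ‖1 - z‖) ^ 2 := by gcongr
  nlinarith [h6]

/-- the values at translations of the family of traces -/
lemma int_nat (B : Basics G τ S2 S3 S6) {g : G} (hg : g ∈ Transl G) :
    ∃ n : ℕ, ∀ φ ∈ TS G, (φ g).re = (φ (τ n)).re := by
  obtain ⟨m, hm⟩ := B.int hg
  refine ⟨m.natAbs, fun φ hφ => ?_⟩
  rw [hm φ hφ.2.1]
  rcases Int.natAbs_eq m with h | h
  · rw [← h]
  · rw [h]
    simp only [Int.natAbs_neg, Int.natAbs_natCast]
    rw [← tau_inv B.hτ, PD.inv hφ.2.2 hφ.1, Complex.star_def, Complex.conj_re]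

/-- **From conditionally negative definite functions to the gap.** -/
theorem gap_of_cnd (B : Basics G τ S2 S3 S6)
    (h : ∀ ψ : G → ℝ, NegDef ψ → ∃ b : ℝ, ∀ g ∈ Transl G, ψ g ≤ b) :
    ∃ c : ℝ, 0 < c ∧ Gap 2 3 c := by
  by_contra hcon
  push Not at hcon
  have h1 : ∀ k : ℕ, ∃ μ : Measure TT, IsProbabilityMeasure μ ∧
      MeasurePreserving (fun x : TT => 2 • x) μ μ ∧ MeasurePreserving (fun x : TT => 3 • x) μ μ ∧
      μ {0} = 0 ∧ 1 - (hat μ 1).re ≤ 1 / 16 ^ k := by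
    intro k
    have h2 := hcon (1 / 16 ^ k) (by positivity)
    unfold Gap at h2
    push Not at h2
    obtain ⟨μ, a1, a2, a3, a4, a5⟩ := h2
    exact ⟨μ, a1, a2, a3, a4, by linarith⟩
  choose μ hμp hμ2 hμ3 hμ0 hμ1 using h1
  have h2 := fun k => B.of_meas (μ k) (hμ2 k) (hμ3 k)
  choose φ hφ D h5 h6 using h2
  set F : ℕ → G → ℝ := fun k g => 4 ^ k * (1 - (φ k g).re) with hF
  set Ψ : G → ℝ := fun g => ∑' k, F k g with hΨ
  have hre1 : ∀ (k : ℕ) (g : G), (φ k g).re ≤ 1 := fun k g =>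
    (Complex.re_le_norm _).trans (Pool.Agent.Y253.TR.PD.norm_le (hφ k).2.2 (hφ k).1 g)
  have hF0 : ∀ k g, 0 ≤ F k g := fun k g =>
    mul_nonneg (by positivity) (by linarith [hre1 k g])
  have hsum : ∀ g ∈ Transl G, Summable fun k => F k g := by
    intro g hg
    obtain ⟨n, hn⟩ := int_nat B hg
    refine Summable.of_nonneg_of_le (fun k => hF0 k g) (fun k => ?_)
      ((summable_geometric_of_lt_one (r := (1 / 4 : ℝ)) (by norm_num) (by norm_num)).mul_left
        ((n : ℝ) ^ 2))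
    simp only [hF]
    rw [hn _ (hφ k), ← hat_eq (D k)]
    have h7 := re_sq_bound (μ k) n
    calc (4 : ℝ) ^ k * (1 - (hat (μ k) n).re) ≤ 4 ^ k * ((n : ℝ) ^ 2 * (1 / 16 ^ k)) := by
          apply mul_le_mul_of_nonneg_left _ (by positivity)
          exact h7.trans (mul_le_mul_of_nonneg_left (hμ1 k) (by positivity))
      _ = (n : ℝ) ^ 2 * (1 / 4) ^ k := by
          have : (16 : ℝ) ^ k = 4 ^ k * 4 ^ k := by rw [← mul_pow]; norm_num
          rw [this, one_div_pow]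
          field_simp
  have hN : NegDef Ψ := by
    refine ⟨?_, fun g _ => ?_, fun g h => ?_, fun n x w hx hw => ?_⟩
    · simp only [hΨ, hF, (hφ _).1]
      simp
    · simp only [hΨ, hF]
      congr 1
      funext k
      rw [PD.inv (hφ k).2.2 (hφ k).1, Complex.star_def, Complex.conj_re]
    · simp only [hΨ, hF]
      congr 1
      funext k
      rw [(hφ k).2.1]
    · have hmem : ∀ i j, (x j)⁻¹ * x i ∈ Transl G := by
        intro i j
        obtain ⟨r, hr⟩ := hx i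
        obtain ⟨r', hr'⟩ := hx j
        refine ⟨r - r', fun y => ?_⟩
        rw [Subgroup.coe_mul, Equiv.Perm.mul_apply, Subgroup.coe_inv, Equiv.Perm.inv_eq_iff_eq,
          hr, hr']
        ring
      have hs : HasSum (fun k => ∑ i, ∑ j, w i * w j * F k ((x j)⁻¹ * x i))
          (∑ i, ∑ j, w i * w j * Ψ ((x j)⁻¹ * x i)) :=
        hasSum_sum fun i _ => hasSum_sum fun j _ => ((hsum _ (hmem i j)).hasSum).mul_left _
      refine hasSum_le (fun k => ?_) hs hasSum_zero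
      have h7 := (hφ k).2.2.family Finset.univ x (fun i => (w i : ℂ))
      have h8 := (Complex.nonneg_iff.1 h7).1
      have e1 : (∑ i, ∑ j, star (w j : ℂ) * (w i : ℂ) * φ k ((x j)⁻¹ * x i)).re =
          ∑ i, ∑ j, w i * w j * (φ k ((x j)⁻¹ * x i)).re := by
        rw [Complex.re_sum]
        refine Finset.sum_congr rfl fun i _ => ?_
        rw [Complex.re_sum]
        refine Finset.sum_congr rfl fun j _ => ?_
        rw [Complex.star_def, Complex.conj_ofReal, ← Complex.ofReal_mul, Complex.re_ofReal_mul]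
        ring
      rw [e1] at h8
      have e2 : ∑ i, ∑ j, w i * w j * F k ((x j)⁻¹ * x i) =
          4 ^ k * ((∑ i, w i) ^ 2 - ∑ i, ∑ j, w i * w j * (φ k ((x j)⁻¹ * x i)).re) := by
        rw [sq, Finset.sum_mul_sum, ← Finset.sum_sub_distrib, Finset.mul_sum]
        refine Finset.sum_congr rfl fun i _ => ?_
        rw [← Finset.sum_sub_distrib, Finset.mul_sum]
        refine Finset.sum_congr rfl fun j _ => ?_
        simp only [hF]
        ring
      rw [e2, hw]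
      have : (0 : ℝ) < 4 ^ k := by positivity
      nlinarith
  obtain ⟨b, hb⟩ := h Ψ hN
  have hkb : ∀ k : ℕ, (4 : ℝ) ^ k ≤ b := by
    intro k
    have h7 : ∀ m : ℕ, 1 - (hat (μ k) m).re ≤ b / 4 ^ k := by
      intro m
      rw [le_div_iff₀ (by positivity), hat_eq (D k), mul_comm]
      calc 4 ^ k * (1 - (φ k (τ m)).re) = F k (τ m) := rfl
        _ ≤ Ψ (τ m) := (hsum _ (tau_mem B.hτ m)).le_tsum k fun j _ => hF0 j _
        _ ≤ b := hb _ (tau_mem B.hτ m)
    have h8 := avg (μ k) h7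
    rw [measureReal_def, hμ0, ENNReal.toReal_zero, sub_zero, le_div_iff₀ (by positivity)] at h8
    linarith
  obtain ⟨k, hk⟩ := pow_unbounded_of_one_lt b (show (1 : ℝ) < 4 by norm_num)
  exact absurd (hkb k) (by linarith)

/-- **From extreme traces to the gap.** -/
theorem gap_of_extreme (B : Basics G τ S2 S3 S6) {c : ℝ} (hc : 0 < c)
    (h : ∀ φ ∈ (TS G).extremePoints ℝ, ∀ g ∈ Transl G, φ g = 1 ∨ (φ g).re ≤ 1 - c) :
    Gap 2 3 (1 / (2 / c)) := by
  have hlin : ∀ m : ℤ, ∀ φ ∈ TS G, ((φ 1).re - (φ (τ m)).re) -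
      2 / c * ((φ 1).re - (φ (τ 1)).re) ≤ 0 := by
    intro m
    refine Pool.Agent.Y253.TR.le_of_extreme (Λ := fun φ : G → ℂ => ((φ 1).re - (φ (τ m)).re) -
      2 / c * ((φ 1).re - (φ (τ 1)).re)) ?_ ?_ ?_ ?_
    · have hcont : ∀ g : G, Continuous fun φ : G → ℂ => (φ g).re := fun g =>
        Complex.continuous_re.comp (continuous_apply g)
      exact ((hcont 1).sub (hcont _)).sub (continuous_const.mul ((hcont 1).sub (hcont _)))
    · intro φ ψ
      simp only [Pi.add_apply, Complex.add_re]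
      ring
    · intro s φ
      simp only [Pi.smul_apply, Complex.real_smul, Complex.re_ofReal_mul]
      ring
    · intro φ hφ
      have hφ' := hφ.1
      obtain ⟨μ, D⟩ := B.data φ hφ'
      have hre : ∀ g : G, -1 ≤ (φ g).re := fun g => by
        have h1 := Complex.abs_re_le_norm (φ g)
        have h2 := Pool.Agent.Y253.TR.PD.norm_le hφ'.2.2 hφ'.1 g
        linarith [(abs_le.1 h1).1]
      rw [hφ'.1, Complex.one_re]
      rcases h φ hφ (τ 1) (tau_mem B.hτ 1) with h1 | h1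
      · have h2 : ∀ n : ℕ, φ (τ n) = 1 := by
          intro n
          induction n with
          | zero => rw [Nat.cast_zero, tau_zero B.hτ, hφ'.1]
          | succ n ih =>
            have h3 := hφ'.2.2.mul_of_eq_one hφ'.1 h1 (τ n)
            rw [tau_add B.hτ, ih] at h3
            rw [← h3]
            congr 2
        have h3 : (φ (τ m)).re = 1 := by
          rcases Int.natAbs_eq m with h4 | h4
          · rw [h4, h2, Complex.one_re]
          · rw [h4, ← tau_inv B.hτ, PD.inv hφ'.2.2 hφ'.1, h2]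
            simp
        rw [h3, h1]
        simp
      · have h2 := hre (τ m)
        have h3 : 2 ≤ 2 / c * (1 - (φ (τ 1)).re) := by
          calc (2 : ℝ) = 2 / c * c := by field_simp
            _ ≤ _ := by
              apply mul_le_mul_of_nonneg_left _ (by positivity)
              linarith
        linarith
  apply gap_of_lin (by positivity)
  intro μ hμ h2 h3 m
  obtain ⟨φ, hφ, D, -, -⟩ := B.of_meas μ h2 h3
  have := hlin m φ hφ
  rw [hφ.1, Complex.one_re, ← hat_eq D, ← hat_eq D] at this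
  linarith

/-- the trace of a symmetrised root -/
lemma root_trace (B : Basics G τ S2 S3 S6) {ν : Measure TT} [IsProbabilityMeasure ν]
    (hν2 : MeasurePreserving (fun x : TT => 2 • x) ν ν)
    (hν3 : MeasurePreserving (fun x : TT => 3 • x) ν ν) (hat0 : ∀ x, ν {x} = 0) {m : ℤ}
    (hm : m ≠ 0) (hne : hat ν m ≠ 0) {n : ℕ} (hn : 1 ≤ n) {ρ : Measure TT}
    [IsProbabilityMeasure ρ] (hρ : nfold n ρ = ν) :
    ∃ χ ∈ TS G, ∃ (_ : Data G τ χ S6 (sym m ρ)), Diffuse χ ∧ (∀ g ∉ Transl G, χ g = 0) ∧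
      nfold n (sym m ρ) = sym m ν ∧ 1 - (χ (τ 1)).re ≤ (-2 * Real.log ‖hat ν m‖) / n := by
  obtain ⟨h1, h2, h3, h4⟩ := sym_root hν2 hν3 hn hρ hne
  obtain ⟨χ, hχ, D, h5, -⟩ := B.of_meas (sym m ρ) h1 h2
  refine ⟨χ, hχ, D, (diffuse_iff D).2 fun w => ?_, h5, h3, ?_⟩
  · exact sym_atomless hm (root_atomless hρ hat0) w
  · rw [← hat_eq D]; exact h4

/-- **A gap at every translation implies rigidity of infinitely divisible traces.** -/
theorem infdiv_of_local (B : Basics G τ S2 S3 S6)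
    (h : ∃ c : ℝ, 0 < c ∧ ∀ φ ∈ TS G, Diffuse φ → (φ (τ 1)).re ≤ 1 - c) (φ : G → ℂ)
    (hφ : φ ∈ TS G) (hd : Diffuse φ)
    (hid : ∀ n : ℕ, 1 ≤ n → ∃ ψ ∈ TS G, ∀ g, ψ g ^ n = φ g) :
    φ = Set.indicator ({1} : Set G) (fun _ => (1 : ℂ)) := by
  obtain ⟨c, hc, hG⟩ := h
  obtain ⟨μ, D⟩ := B.data φ hφ
  have := D.prob
  have hat0 := (diffuse_iff D).1 hd
  have hz : ∀ m : ℤ, m ≠ 0 → φ (τ m) = 0 := by
    intro m hm
    by_contra hne
    rw [← hat_eq D] at hne
    set b : ℝ := -2 * Real.log ‖hat μ m‖ with hb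
    have hb0 : 0 ≤ b := by
      have := Real.log_nonpos (norm_nonneg _) (norm_hat_le μ m)
      rw [hb]; linarith
    obtain ⟨n, hn⟩ := exists_nat_gt (b / c)
    have hnR : (0 : ℝ) < n := lt_of_le_of_lt (div_nonneg hb0 hc.le) hn
    have hn1 : 1 ≤ n := by
      have : 0 < n := by exact_mod_cast hnR
      omega
    obtain ⟨ψ, hψ, hψφ⟩ := hid n hn1
    obtain ⟨ρ, D'⟩ := B.data ψ hψ
    have := D'.prob
    have hρ : nfold n ρ = μ := by
      apply ext_hat
      intro k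
      rw [hat_nfold, hat_eq D', hat_eq D, hψφ]
    obtain ⟨χ, hχ, -, hdχ, -, -, h4⟩ := root_trace B D.mp2 D.mp3 hat0 hm hne hn1 hρ
    have h5 := hG χ hχ hdχ
    have h6 : b / n < c := by
      rw [div_lt_iff₀ hnR]
      rw [div_lt_iff₀ hc] at hn
      linarith
    linarith
  funext g
  by_cases hg : g = 1
  · rw [Set.indicator_of_mem (by simpa using hg), hg, D.h1]
  · rw [Set.indicator_of_notMem (by simpa using hg)]
    exact eq_regular D.hτ D.h1 D.hcl D.hpd S6 D.hS6 D.hform hz g hg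

/-- **Rigidity of infinitely divisible traces implies the gap.** -/
theorem gap_of_infdiv (B : Basics G τ S2 S3 S6)
    (h : ∀ φ ∈ TS G, Diffuse φ → (∀ n : ℕ, 1 ≤ n → ∃ ψ ∈ TS G, ∀ g, ψ g ^ n = φ g) →
      φ = Set.indicator ({1} : Set G) (fun _ => (1 : ℂ))) :
    ∃ c : ℝ, 0 < c ∧ Gap 2 3 c := by
  apply gap_of_sigma
  intro L hL h1 h2 U hU hne hfin
  by_contra hcon
  rw [not_lt, top_le_iff] at hcon
  obtain ⟨ν, hν, hat0, hν2, hν3, hroots, hvol⟩ := exists_id (p := 2) (q := 3) le_rfl (by norm_num)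
    irr23 L h1 h2 hU hne hfin hcon
  have hex : ∃ m : ℤ, m ≠ 0 ∧ hat ν m ≠ 0 := by
    by_contra hcon'
    push Not at hcon'
    apply hvol
    apply ext_hat
    intro m
    by_cases hm : m = 0
    · subst hm
      unfold hat
      simp [measureReal_def, AddCircle.measure_univ]
    · rw [hcon' m hm, hat_vol hm]
  obtain ⟨m, hm, hmne⟩ := hex
  have h1' : nfold 1 ν = ν := by
    apply ext_hat
    intro k
    rw [hat_nfold, pow_one]
  obtain ⟨χ, hχ, D, hdχ, hχ0, hχn, -⟩ := root_trace B hν2 hν3 hat0 hm hmne le_rfl h1'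
  have h3 := h χ hχ hdχ (fun n hn => by
    obtain ⟨ρ, hρ, hρn⟩ := hroots n hn
    obtain ⟨ψ, hψ, D', -, hψ0, hψn, -⟩ := root_trace B hν2 hν3 hat0 hm hmne hn hρn
    refine ⟨ψ, hψ, fun g => ?_⟩
    by_cases hg : g ∈ Transl G
    · obtain ⟨k, hk⟩ := B.int hg
      rw [hk ψ hψ.2.1, hk χ hχ.2.1, ← hat_eq D', ← hat_eq D, ← hat_nfold, hψn]
    · rw [hψ0 g hg, hχ0 g hg, zero_pow (by omega)])
  have h4 : χ (τ 1) = 0 := by
    rw [h3, Set.indicator_of_notMem]
    rw [Set.mem_singleton_iff]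
    exact tau_ne (hτ := B.hτ) one_ne_zero
  rw [← hat_eq D, hat_sym] at h4
  apply hmne
  have h5 : ‖hat ν (1 * m)‖ ^ 2 = 0 := by exact_mod_cast h4
  rw [one_mul, sq_eq_zero_iff, norm_eq_zero] at h5
  exact h5

end

end Pool.Agent.L7h55.IDT
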