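import Mathlib
import Pool.Agent.L7h55.IDT.Main

/-!
Tracial states of `C*(ℤ² ⋉ ℤ[1/6])`: uniform faithfulness, and the mean squares of infinitely
divisible traces.
-/

set_option autoImplicit false
open MeasureTheory Filter Topology
open scoped NNReal ENNReal ComplexOrder

namespace Pool.Agent.L7h55.IDT

open Pool.Agent.R203.ID Pool.Agent.L7h55.ID Pool.Agent.W763.Tr Pool.Agent.TH654.FC
open Pool.Agent.Y253.TR (TS)

section

variable {G : Subgroup (Equiv.Perm ℚ)} {τ : ℤ → G} {S2 S3 S6 : G}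

/-- **The gap implies uniform faithfulness.** -/
theorem faithful (B : Basics G τ S2 S3 S6) {c : ℝ} (hc : 0 < c) (hGap : Gap 2 3 c)
    (s : Finset G) (a : G → ℂ) (hs : ∀ g ∈ s, g ∈ Transl G) (hne : ∃ g ∈ s, a g ≠ 0) :
    ∃ δ : ℝ, 0 < δ ∧ ∀ φ ∈ TS G, Diffuse φ →
      δ ≤ (∑ i ∈ s, ∑ j ∈ s, star (a j) * a i * φ (j⁻¹ * i)).re := by
  classical
  have hch : ∀ i : G, ∃ (n : ℤ) (k : ℕ), i ∈ s → ∀ x, (i : Equiv.Perm ℚ) x = x + n / 6 ^ k := by
    intro i
    by_cases hi : i ∈ s
    · obtain ⟨n, k, h⟩ := B.six (hs i hi)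
      exact ⟨n, k, fun _ => h⟩
    · exact ⟨0, 0, fun h => absurd h hi⟩
  choose n0 k0 hn0 using hch
  set K := s.sup k0 with hK
  set n : G → ℤ := fun i => n0 i * 6 ^ (K - k0 i) with hn
  have hbt : ∀ i ∈ s, ∀ x, (i : Equiv.Perm ℚ) x = x + n i / 6 ^ K := by
    intro i hi x
    rw [hn0 i hi x, hn]
    have hle : k0 i ≤ K := Finset.le_sup hi
    have e : (6 : ℚ) ^ K = 6 ^ (K - k0 i) * 6 ^ k0 i := by rw [← pow_add]; congr 1; omega
    have h6 : (6 : ℚ) ^ (K - k0 i) ≠ 0 := by positivity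
    have h6' : (6 : ℚ) ^ (k0 i) ≠ 0 := by positivity
    push_cast
    rw [e]
    field_simp
  have hinj : ∀ i ∈ s, ∀ j ∈ s, n i = n j → i = j := by
    intro i hi j hj h
    apply Subtype.ext
    apply Equiv.ext
    intro x
    rw [hbt i hi, hbt j hj, h]
  set P : TT → ℂ := fun x => ∑ i ∈ s, a i * fourier (n i) x with hP
  have hPc : Continuous P := by rw [hP]; fun_prop
  have hsq : ∀ x, ((‖P x‖ ^ 2 : ℝ) : ℂ) =
      ∑ i ∈ s, ∑ j ∈ s, star (a j) * a i * fourier (n i - n j) x := by
    intro x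
    have e1 : ((‖P x‖ ^ 2 : ℝ) : ℂ) = P x * starRingEnd ℂ (P x) := by
      rw [Complex.mul_conj, Complex.normSq_eq_norm_sq]
    rw [e1, hP]
    simp only
    rw [map_sum, Finset.sum_mul]
    refine Finset.sum_congr rfl fun i _ => ?_
    rw [Finset.mul_sum]
    refine Finset.sum_congr rfl fun j _ => ?_
    rw [map_mul, ← fourier_neg]
    have e2 : (fourier (n i - n j) x : ℂ) = fourier (n i) x * fourier (-(n j)) x := by
      rw [← fourier_add]; congr 1
    rw [e2, Complex.star_def]; ring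
  have hsum : ∀ (φ : G → ℂ) (μ : Measure TT), Data G τ φ S6 μ →
      ∑ i ∈ s, ∑ j ∈ s, star (a j) * a i * φ (j⁻¹ * i) = ((∫ x, ‖P x‖ ^ 2 ∂μ : ℝ) : ℂ) := by
    intro φ μ D
    have := D.prob
    rw [← integral_complex_ofReal]
    simp only [hsq]
    rw [integral_finsetSum]
    · refine Finset.sum_congr rfl fun i hi' => ?_
      rw [integral_finsetSum]
      · refine Finset.sum_congr rfl fun j hj' => ?_
        rw [integral_const_mul]
        congr 1
        rw [D.hμ]
        refine phi_trans D.hτ D.hcl S6 D.hS6 _ _ K fun x => ?_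
        rw [Subgroup.coe_mul, Equiv.Perm.mul_apply, Subgroup.coe_inv, Equiv.Perm.inv_eq_iff_eq,
          hbt i hi', hbt j hj']
        push_cast
        field_simp
        ring
      · intro j _
        exact (integrable_f μ _).const_mul _
    · intro i _
      exact integrable_finsetSum _ fun j _ => (integrable_f μ _).const_mul _
  obtain ⟨g0, hg0, hag0⟩ := hne
  have hx0 : ∃ x0, P x0 ≠ 0 := by
    by_contra hcon
    push Not at hcon
    apply hag0
    have h1 : ∫ x : TT, P x * fourier (-(n g0)) x = 0 := by simp [hcon]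
    have h2 : ∀ x : TT, P x * fourier (-(n g0)) x = ∑ i ∈ s, a i * fourier (n i - n g0) x := by
      intro x
      rw [hP]
      simp only
      rw [Finset.sum_mul]
      refine Finset.sum_congr rfl fun i _ => ?_
      rw [mul_assoc, ← fourier_add, sub_eq_add_neg]
    simp only [h2] at h1
    have hvol : IsProbabilityMeasure (volume : Measure TT) := ⟨UnitAddCircle.measure_univ⟩
    rw [integral_finsetSum _ fun i _ => (integrable_f volume _).const_mul _,
      Finset.sum_eq_single g0] at h1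
    · rw [integral_const_mul, sub_self] at h1
      simpa using h1
    · intro i hi hig
      rw [integral_const_mul]
      have : n i - n g0 ≠ 0 := fun h => hig (hinj i hi g0 hg0 (by omega))
      have h3 := hat_vol this
      unfold hat at h3
      rw [h3, mul_zero]
    · intro h
      exact absurd hg0 h
  obtain ⟨x0, hx0⟩ := hx0
  have hx0' : 0 < ‖P x0‖ ^ 2 := by
    have := norm_pos_iff.2 hx0
    positivity
  set η : ℝ := ‖P x0‖ ^ 2 / 2 with hη
  have hη0 : 0 < η := by rw [hη]; positivity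
  set U : Set TT := {x | η < ‖P x‖ ^ 2} with hU
  have hUo : IsOpen U := isOpen_lt continuous_const (by fun_prop)
  have hUne : U.Nonempty := ⟨x0, by
    show η < ‖P x0‖ ^ 2
    rw [hη]; linarith⟩
  obtain ⟨C, hC⟩ := hit_of_gap (p := 2) (q := 3) le_rfl (by norm_num) irr23 hc hGap hUo hUne
  refine ⟨η / (C + 1), by positivity, fun φ hφ hd => ?_⟩
  obtain ⟨μ, D⟩ := B.data φ hφ
  have := D.prob
  have hat0 := (diffuse_iff D).1 hd
  have hKU : μ (Pool.Agent.H847R3.XpXq.KU 2 3 U) = 0 := finite_null hat0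
    (Pool.Agent.H847R3.XpXq.KU_finite le_rfl (by norm_num) irr23 hUo hUne)
  have h1 : (1 : ENNReal) ≤ C * μ U := by
    refine le_trans ?_ (hC μ D.prob D.mp2 D.mp3)
    have h2 : μ Set.univ ≤ μ (Pool.Agent.H847R3.XpXq.KU 2 3 U) +
        μ {x | ∃ i j : ℕ, (2 ^ i * 3 ^ j) • x ∈ U} := by
      refine (measure_mono ?_).trans (measure_union_le _ _)
      intro x _
      by_cases hx : x ∈ Pool.Agent.H847R3.XpXq.KU 2 3 U
      · exact Or.inl hx
      · right
        simp only [Pool.Agent.H847R3.XpXq.KU, Set.mem_ofPred_eq, not_forall, not_not] at hx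
        exact hx
    rwa [hKU, zero_add, measure_univ] at h2
  have h2 : (1 : ℝ) ≤ C * μ.real U := by
    have h3 := ENNReal.toReal_mono (by finiteness) h1
    rwa [ENNReal.toReal_one, ENNReal.toReal_mul, ENNReal.coe_toReal] at h3
  rw [hsum φ μ D, Complex.ofReal_re]
  have hint : Integrable (fun x => ‖P x‖ ^ 2) μ :=
    (by fun_prop : Continuous fun x => ‖P x‖ ^ 2).integrable_of_hasCompactSupport
      (HasCompactSupport.of_compactSpace _)
  have h3 : η * μ.real U ≤ ∫ x, ‖P x‖ ^ 2 ∂μ := by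
    calc η * μ.real U = ∫ x, U.indicator (fun _ => η) x ∂μ := by
          rw [integral_indicator hUo.measurableSet, setIntegral_const, smul_eq_mul, mul_comm]
      _ ≤ _ := by
          refine integral_mono ((integrable_const η).indicator hUo.measurableSet) hint fun x => ?_
          by_cases hx : x ∈ U
          · rw [Set.indicator_of_mem hx]
            exact le_of_lt hx
          · rw [Set.indicator_of_notMem hx]
            positivity
  refine le_trans ?_ h3
  rw [div_le_iff₀ (by positivity), mul_assoc]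
  have h4 : 1 ≤ μ.real U * ((C : ℝ) + 1) := by
    have := measureReal_nonneg (μ := μ) (s := U)
    nlinarith
  calc η = η * 1 := (mul_one _).symm
    _ ≤ _ := by gcongr

/-- mean squares and the mass near the diagonal -/
lemma mean_ge (μ : Measure TT) [IsProbabilityMeasure μ] (m : ℤ) {N : ℕ} (hN : 1 ≤ N) :
    1 / 8 * (μ.prod μ).real {z : TT × TT | ‖m • (z.1 - z.2)‖ ≤ 1 / (2 * Real.pi * N)} ≤
      (∑ n ∈ Finset.range N, ‖hat μ (m * n)‖ ^ 2) / N := by
  have hNR : (0 : ℝ) < N := by exact_mod_cast hN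
  set E : Set (TT × TT) := {z : TT × TT | ‖m • (z.1 - z.2)‖ ≤ 1 / (2 * Real.pi * N)} with hE
  have hEm : MeasurableSet E := (isClosed_le (by fun_prop) continuous_const).measurableSet
  set S : TT × TT → ℂ := fun z => ∑ j ∈ Finset.range N, (fourier (j : ℤ) (m • (z.1 - z.2)) : ℂ)
    with hS
  have hSc : Continuous S := by rw [hS]; fun_prop
  -- the integral of the square
  have h1 : ((∫ z, ‖S z‖ ^ 2 ∂(μ.prod μ) : ℝ) : ℂ) =
      ∑ i ∈ Finset.range N, ∑ j ∈ Finset.range N, ((‖hat μ (((i : ℤ) - j) * m)‖ ^ 2 : ℝ) : ℂ) := by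
    rw [← integral_complex_ofReal]
    have h2 : ∀ z, ((‖S z‖ ^ 2 : ℝ) : ℂ) = ∑ i ∈ Finset.range N, ∑ j ∈ Finset.range N,
        (fourier (((i : ℤ) - j)) (m • (z.1 - z.2)) : ℂ) := by
      intro z
      have e1 : ((‖S z‖ ^ 2 : ℝ) : ℂ) = S z * starRingEnd ℂ (S z) := by
        rw [Complex.mul_conj, Complex.normSq_eq_norm_sq]
      rw [e1, hS]
      simp only
      rw [map_sum, Finset.sum_mul]
      refine Finset.sum_congr rfl fun i _ => ?_
      rw [Finset.mul_sum]
      refine Finset.sum_congr rfl fun j _ => ?_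
      rw [← fourier_neg, ← fourier_add, ← sub_eq_add_neg]
    simp only [h2]
    have hint : ∀ k : ℤ, Integrable (fun z : TT × TT => (fourier k (m • (z.1 - z.2)) : ℂ))
        (μ.prod μ) := fun k =>
      (by fun_prop : Continuous fun z : TT × TT =>
        (fourier k (m • (z.1 - z.2)) : ℂ)).integrable_of_hasCompactSupport
        (HasCompactSupport.of_compactSpace _)
    rw [integral_finsetSum _ fun i _ => integrable_finsetSum _ fun j _ => hint _]
    refine Finset.sum_congr rfl fun i _ => ?_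
    rw [integral_finsetSum _ fun j _ => hint _]
    refine Finset.sum_congr rfl fun j _ => ?_
    rw [← hat_sym]
    unfold hat sym
    rw [integral_map (by fun_prop) (fourier _).continuous.aestronglyMeasurable]
  have h2 : ∫ z, ‖S z‖ ^ 2 ∂(μ.prod μ) =
      ∑ i ∈ Finset.range N, ∑ j ∈ Finset.range N, ‖hat μ (((i : ℤ) - j) * m)‖ ^ 2 := by
    exact_mod_cast h1
  -- even coefficients
  have hev : ∀ k : ℤ, ‖hat μ (-k)‖ = ‖hat μ k‖ := by
    intro k
    have : hat μ (-k) = (starRingEnd ℂ) (hat μ k) := by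
      unfold hat
      rw [← integral_conj]
      congr 1
      funext x
      rw [fourier_neg]
    rw [this, RCLike.norm_conj]
  set f : ℕ → ℝ := fun n => ‖hat μ (m * n)‖ ^ 2 with hf
  have hf0 : ∀ n, 0 ≤ f n := fun n => by positivity
  have h3 : ∀ i ∈ Finset.range N, ∑ j ∈ Finset.range N, ‖hat μ (((i : ℤ) - j) * m)‖ ^ 2 ≤
      2 * ∑ n ∈ Finset.range N, f n := by
    intro i hi
    have hiN := Finset.mem_range.1 hi
    have e1 : ∀ j ∈ Finset.range N, ‖hat μ (((i : ℤ) - j) * m)‖ ^ 2 =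
        f ((i : ℤ) - j).natAbs := by
      intro j _
      simp only [hf]
      rcases Int.natAbs_eq ((i : ℤ) - j) with h | h
      · rw [← h, mul_comm]
      · have : m * (((i : ℤ) - j).natAbs : ℤ) = -(((i : ℤ) - j) * m) := by
          rw [show (((i : ℤ) - j).natAbs : ℤ) = -((i : ℤ) - j) by omega]; ring
        rw [this, hev]
    rw [Finset.sum_congr rfl e1]
    have e2 : ∑ j ∈ Finset.range N, f ((i : ℤ) - j).natAbs =
        ∑ j ∈ (Finset.range N).filter (fun j => j ≤ i), f ((i : ℤ) - j).natAbs +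
        ∑ j ∈ (Finset.range N).filter (fun j => ¬ j ≤ i), f ((i : ℤ) - j).natAbs :=
      (Finset.sum_filter_add_sum_filter_not _ _ _).symm
    rw [e2, two_mul]
    apply add_le_add
    · have : ∑ j ∈ (Finset.range N).filter (fun j => j ≤ i), f ((i : ℤ) - j).natAbs =
          ∑ n ∈ ((Finset.range N).filter (fun j => j ≤ i)).image (fun j => i - j), f n := by
        rw [Finset.sum_image]
        · refine Finset.sum_congr rfl fun j hj => ?_
          have := (Finset.mem_filter.1 hj).2
          congr 1; omega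
        · intro j hj k hk h
          have h1 := (Finset.mem_filter.1 (Finset.mem_coe.1 hj)).2
          have h2 := (Finset.mem_filter.1 (Finset.mem_coe.1 hk)).2
          simp only at h
          omega
      rw [this]
      apply Finset.sum_le_sum_of_subset_of_nonneg
      · intro n hn
        obtain ⟨j, hj, rfl⟩ := Finset.mem_image.1 hn
        rw [Finset.mem_range]; omega
      · intro n _ _; exact hf0 n
    · have : ∑ j ∈ (Finset.range N).filter (fun j => ¬ j ≤ i), f ((i : ℤ) - j).natAbs =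
          ∑ n ∈ ((Finset.range N).filter (fun j => ¬ j ≤ i)).image (fun j => j - i), f n := by
        rw [Finset.sum_image]
        · refine Finset.sum_congr rfl fun j hj => ?_
          have := (Finset.mem_filter.1 hj).2
          congr 1; omega
        · intro j hj k hk h
          have h1 := (Finset.mem_filter.1 (Finset.mem_coe.1 hj)).2
          have h2 := (Finset.mem_filter.1 (Finset.mem_coe.1 hk)).2
          simp only at h
          omega
      rw [this]
      apply Finset.sum_le_sum_of_subset_of_nonneg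
      · intro n hn
        obtain ⟨j, hj, rfl⟩ := Finset.mem_image.1 hn
        have := Finset.mem_range.1 (Finset.mem_filter.1 hj).1
        rw [Finset.mem_range]; omega
      · intro n _ _; exact hf0 n
  have h4 : ∫ z, ‖S z‖ ^ 2 ∂(μ.prod μ) ≤ N * (2 * ∑ n ∈ Finset.range N, f n) := by
    rw [h2]
    refine (Finset.sum_le_sum h3).trans_eq ?_
    rw [Finset.sum_const, Finset.card_range, nsmul_eq_mul]
  -- lower bound near the diagonal
  have h5 : ∀ z ∈ E, (N : ℝ) / 2 ≤ ‖S z‖ := by
    intro z hz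
    have hz' : ‖m • (z.1 - z.2)‖ ≤ 1 / (2 * Real.pi * N) := hz
    have h6 : ‖(N : ℂ) - S z‖ ≤ N / 2 := by
      have e : (N : ℂ) - S z = ∑ j ∈ Finset.range N,
          (1 - (fourier (j : ℤ) (m • (z.1 - z.2)) : ℂ)) := by
        rw [Finset.sum_sub_distrib]; simp [hS]
      rw [e]
      refine (norm_sum_le _ _).trans ?_
      have h7 : ∀ j ∈ Finset.range N, ‖1 - (fourier (j : ℤ) (m • (z.1 - z.2)) : ℂ)‖ ≤ 1 / N * j := by
        intro j _
        refine (f_sub_one _ _).trans ?_
        have : |((j : ℤ) : ℝ)| = j := by simp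
        rw [this]
        calc 2 * Real.pi * j * ‖m • (z.1 - z.2)‖ ≤ 2 * Real.pi * j * (1 / (2 * Real.pi * N)) := by
              gcongr
          _ = 1 / N * j := by field_simp
      refine (Finset.sum_le_sum h7).trans ?_
      rw [← Finset.mul_sum]
      have h8 : (∑ j ∈ Finset.range N, (j : ℝ)) * 2 = N * (N - 1) := by
        have := Finset.sum_range_id_mul_two N
        have h9 : ((∑ j ∈ Finset.range N, j : ℕ) : ℝ) * 2 = ((N * (N - 1) : ℕ) : ℝ) := by
          exact_mod_cast this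
        rw [Nat.cast_mul, Nat.cast_sub hN] at h9
        push_cast at h9
        exact h9
      rw [one_div, inv_mul_le_iff₀ hNR]
      nlinarith
    have h9 : ‖(N : ℂ)‖ = N := Complex.norm_natCast N
    have h10 := norm_sub_norm_le (N : ℂ) (S z)
    rw [h9] at h10
    linarith
  have hint : Integrable (fun z => ‖S z‖ ^ 2) (μ.prod μ) :=
    (by fun_prop : Continuous fun z => ‖S z‖ ^ 2).integrable_of_hasCompactSupport
      (HasCompactSupport.of_compactSpace _)
  have h6 : (N : ℝ) ^ 2 / 4 * (μ.prod μ).real E ≤ ∫ z, ‖S z‖ ^ 2 ∂(μ.prod μ) := by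
    calc (N : ℝ) ^ 2 / 4 * (μ.prod μ).real E =
        ∫ z, E.indicator (fun _ => (N : ℝ) ^ 2 / 4) z ∂(μ.prod μ) := by
          rw [integral_indicator hEm, setIntegral_const, smul_eq_mul, mul_comm]
      _ ≤ _ := by
          refine integral_mono ((integrable_const _).indicator hEm) hint fun z => ?_
          by_cases hz : z ∈ E
          · rw [Set.indicator_of_mem hz]
            have := h5 z hz
            calc (N : ℝ) ^ 2 / 4 = (N / 2) ^ 2 := by ring
              _ ≤ ‖S z‖ ^ 2 := by gcongr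
          · rw [Set.indicator_of_notMem hz]
            positivity
  have h7 := h6.trans h4
  rw [le_div_iff₀ hNR]
  have h8 : N * (1 / 8 * (μ.prod μ).real E * N) ≤ N * ∑ n ∈ Finset.range N, f n := by
    nlinarith
  exact le_of_mul_le_mul_left h8 hNR

/-- **Mean squares of infinitely divisible traces.** -/
theorem slow_trace (B : Basics G τ S2 S3 S6) {κ : ℝ} (hκ : 0 < κ) {φ : G → ℂ} (hφ : φ ∈ TS G)
    (hid : ∀ n : ℕ, 1 ≤ n → ∃ ψ ∈ TS G, ∀ g, ψ g ^ n = φ g) {g : G} (hg : g ∈ Transl G)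
    (hne : φ g ≠ 0) : ∃ C : ℝ, ∀ N : ℕ, 2 ≤ N →
      Real.exp (-(C * Real.log N ^ κ)) ≤ (∑ n ∈ Finset.range N, ‖φ (g ^ n)‖ ^ 2) / N := by
  obtain ⟨μ, D⟩ := B.data φ hφ
  have := D.prob
  obtain ⟨r, hr⟩ := hg
  obtain ⟨m, hm⟩ := D.pow hr
  have h1 := hm 1
  rw [pow_one, Nat.cast_one, mul_one, ← hat_eq D] at h1
  rw [h1] at hne
  obtain ⟨κ₀, h0, -, h2, h3⟩ := Pool.Agent.TH461.FGK.nc (p := 2) (q := 3) le_rfl (by norm_num) irr23
  have hk0 : κ₀ = 0 := h2 ⟨2, 3, 1, 0, 0, 1, le_rfl, by norm_num, by norm_num, by simp, by simp, by simp⟩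
  obtain ⟨C, hC⟩ := slow hκ (h3 κ (by rw [hk0]; exact hκ)) μ D.mp2 D.mp3 (fun n hn => by
    obtain ⟨ψ, hψ, hψφ⟩ := hid n hn
    obtain ⟨ρ, D'⟩ := B.data ψ hψ
    have := D'.prob
    refine ⟨ρ, this, ?_⟩
    apply ext_hat
    intro k
    rw [hat_nfold, hat_eq D', hat_eq D, hψφ]) hne
  have hl2 : 0 < Real.log 2 := Real.log_pos (by norm_num)
  set C' : ℝ := |C| * 4 ^ κ + Real.log 8 / Real.log 2 ^ κ with hC'
  refine ⟨C', fun N hN => ?_⟩
  have hNR : (2 : ℝ) ≤ N := by exact_mod_cast hN
  have hlN : Real.log 2 ≤ Real.log N := Real.log_le_log (by norm_num) hNR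
  have hlN0 : 0 < Real.log N := hl2.trans_le hlN
  have hpi := Real.pi_gt_three
  have hpi4 := Real.pi_lt_four
  set t : ℝ := Real.log (2 * Real.pi * N) with ht
  have hpos : 0 < 2 * Real.pi * N := by positivity
  have ht1 : 1 ≤ t := by
    rw [ht, Real.le_log_iff_exp_le hpos]
    have := Real.exp_one_lt_d9
    nlinarith
  have ht2 : t ≤ 4 * Real.log N := by
    rw [ht]
    have e : 4 * Real.log N = Real.log ((N : ℝ) ^ 4) := by rw [Real.log_pow]; norm_num
    rw [e]
    apply Real.log_le_log hpos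
    have h8 : (8 : ℝ) ≤ (N : ℝ) ^ 3 := by
      calc (8 : ℝ) = 2 ^ 3 := by norm_num
        _ ≤ _ := by gcongr
    calc 2 * Real.pi * N ≤ 8 * N := by nlinarith
      _ ≤ (N : ℝ) ^ 3 * N := by gcongr
      _ = (N : ℝ) ^ 4 := by ring
  have h4 := hC t ht1
  have h5 := mean_ge μ m (N := N) (by omega)
  have e6 : Real.exp (-t) = 1 / (2 * Real.pi * N) := by
    rw [Real.exp_neg, ht, Real.exp_log hpos, one_div]
  rw [e6] at h4
  have h6 : Real.exp (-(C * t ^ κ)) ≤
      (μ.prod μ).real {z : TT × TT | ‖m • (z.1 - z.2)‖ ≤ 1 / (2 * Real.pi * N)} := by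
    rw [measureReal_def]
    exact (ENNReal.ofReal_le_iff_le_toReal (measure_ne_top _ _)).1 h4
  have h7 : (∑ n ∈ Finset.range N, ‖φ (g ^ n)‖ ^ 2) / N =
      (∑ n ∈ Finset.range N, ‖hat μ (m * n)‖ ^ 2) / N := by
    congr 1
    refine Finset.sum_congr rfl fun n _ => ?_
    rw [hm n, hat_eq D]
  rw [h7]
  refine le_trans ?_ h5
  refine le_trans ?_ (mul_le_mul_of_nonneg_left h6 (by norm_num))
  have e8 : (1 / 8 : ℝ) = Real.exp (-Real.log 8) := by
    rw [Real.exp_neg, Real.exp_log (by norm_num)]; norm_num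
  rw [e8, ← Real.exp_add]
  apply Real.exp_le_exp.2
  have h9 : C * t ^ κ ≤ |C| * 4 ^ κ * Real.log N ^ κ := by
    calc C * t ^ κ ≤ |C| * t ^ κ := by
          apply mul_le_mul_of_nonneg_right (le_abs_self C)
          positivity
      _ ≤ |C| * (4 * Real.log N) ^ κ := by
          apply mul_le_mul_of_nonneg_left _ (abs_nonneg _)
          exact Real.rpow_le_rpow (by linarith) ht2 hκ.le
      _ = |C| * 4 ^ κ * Real.log N ^ κ := by
          rw [Real.mul_rpow (by norm_num) hlN0.le]; ring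
  have h10 : Real.log 8 ≤ Real.log 8 / Real.log 2 ^ κ * Real.log N ^ κ := by
    have hl8 : 0 < Real.log 8 := Real.log_pos (by norm_num)
    have h11 : Real.log 2 ^ κ ≤ Real.log N ^ κ := Real.rpow_le_rpow hl2.le hlN hκ.le
    have h12 : 0 < Real.log 2 ^ κ := Real.rpow_pos_of_pos hl2 κ
    rw [div_mul_eq_mul_div, le_div_iff₀ h12]
    gcongr
  have h13 : C' * Real.log N ^ κ = |C| * 4 ^ κ * Real.log N ^ κ +
      Real.log 8 / Real.log 2 ^ κ * Real.log N ^ κ := by rw [hC']; ring
  rw [h13]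
  linarith

end

end Pool.Agent.L7h55.IDT
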